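import Mathlib

/-!
Laurent functions over a field.
-/

set_option autoImplicit false

namespace Pool.Agent.H159R3.Exp

open MvPolynomial

/-- `φ` is given by a Laurent polynomial on the nonzero elements. -/
def Laur {k : Type*} [Field k] (φ : k → k) : Prop :=
  ∃ (M : ℕ) (Q : Polynomial k), ∀ t, t ≠ 0 → φ t * t ^ M = Q.eval t

variable {k : Type*} [Field k]

theorem Laur.const (c : k) : Laur (fun _ : k => c) := ⟨0, Polynomial.C c, fun t _ => by simp⟩

theorem Laur.id : Laur (fun t : k => t) := ⟨0, Polynomial.X, fun t _ => by simp⟩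

theorem Laur.poly (P : Polynomial k) : Laur (fun t : k => P.eval t) := ⟨0, P, fun t _ => by simp⟩

theorem Laur.add {φ ψ : k → k} (hφ : Laur φ) (hψ : Laur ψ) : Laur (fun t => φ t + ψ t) := by
  obtain ⟨M, Q, h⟩ := hφ
  obtain ⟨M', Q', h'⟩ := hψ
  refine ⟨M + M', Q * Polynomial.X ^ M' + Q' * Polynomial.X ^ M, fun t ht => ?_⟩
  simp only [Polynomial.eval_add, Polynomial.eval_mul, Polynomial.eval_pow, Polynomial.eval_X]
  rw [← h t ht, ← h' t ht, pow_add]
  ring

theorem Laur.mul {φ ψ : k → k} (hφ : Laur φ) (hψ : Laur ψ) : Laur (fun t => φ t * ψ t) := by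
  obtain ⟨M, Q, h⟩ := hφ
  obtain ⟨M', Q', h'⟩ := hψ
  refine ⟨M + M', Q * Q', fun t ht => ?_⟩
  simp only [Polynomial.eval_mul]
  rw [← h t ht, ← h' t ht, pow_add]
  ring

theorem Laur.zpow (b : ℤ) : Laur (fun t : k => t ^ b) := by
  obtain ⟨m, rfl | rfl⟩ := b.eq_nat_or_neg
  · refine ⟨0, Polynomial.X ^ m, fun t _ => by simp⟩
  · refine ⟨m, 1, fun t ht => ?_⟩
    change t ^ (-(m : ℤ)) * t ^ m = _
    rw [zpow_neg, zpow_natCast, inv_mul_cancel₀ (pow_ne_zero _ ht), Polynomial.eval_one]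

theorem Laur.eval₂ {R σ : Type*} [CommRing R] (φ : R →+* k) (v : k → σ → k)
    (hv : ∀ j, Laur (fun t => v t j)) (P : MvPolynomial σ R) :
    Laur (fun t => MvPolynomial.eval₂ φ (v t) P) := by
  induction P using MvPolynomial.induction_on with
  | C a => simpa using Laur.const (φ a)
  | add p q hp hq =>
    simp only [MvPolynomial.eval₂_add]
    exact hp.add hq
  | mul_X p j hp =>
    simp only [MvPolynomial.eval₂_mul, MvPolynomial.eval₂_X]
    exact hp.mul (hv j)

theorem Laur.eval {σ : Type*} (v : k → σ → k)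
    (hv : ∀ j, Laur (fun t => v t j)) (P : MvPolynomial σ k) :
    Laur (fun t => MvPolynomial.eval (v t) P) := Laur.eval₂ (RingHom.id k) v hv P

/-- A common denominator. -/
theorem Laur.common {σ : Type*} [Fintype σ] (v : k → σ → k) (hv : ∀ j, Laur (fun t => v t j)) :
    ∃ (M : ℕ) (Q : σ → Polynomial k), ∀ t, t ≠ 0 → ∀ j, v t j = (Q j).eval t / t ^ M := by
  classical
  choose M Q h using hv
  refine ⟨∑ j, M j, fun j => Q j * Polynomial.X ^ (∑ i ∈ Finset.univ.erase j, M i),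
    fun t ht j => ?_⟩
  rw [Polynomial.eval_mul, Polynomial.eval_pow, Polynomial.eval_X, ← h j t ht,
    eq_div_iff (pow_ne_zero _ ht), ← Finset.add_sum_erase _ M (Finset.mem_univ j), pow_add]
  ring

theorem Laur.finite_zeros [CharZero k] {φ : k → k} (hφ : Laur φ) (h0 : ∃ t, t ≠ 0 ∧ φ t ≠ 0) :
    {m : ℕ | φ (2 ^ m) = 0}.Finite := by
  obtain ⟨M, Q, h⟩ := hφ
  obtain ⟨t, ht, ht0⟩ := h0
  have hQ : Q ≠ 0 := by
    rintro rfl
    have := h t ht
    rw [Polynomial.eval_zero] at this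
    exact mul_ne_zero ht0 (pow_ne_zero _ ht) this
  have hinj : Function.Injective (fun m : ℕ => (2 : k) ^ m) := by
    intro m m' hm
    have h5 : ((2 ^ m : ℕ) : k) = ((2 ^ m' : ℕ) : k) := by
      push_cast; exact hm
    exact Nat.pow_right_injective (le_refl 2) (Nat.cast_injective h5)
  have hfin : {m : ℕ | (2 : k) ^ m ∈ {x | Q.IsRoot x}}.Finite :=
    (Polynomial.finite_setOf_isRoot hQ).preimage hinj.injOn
  refine hfin.subset ?_
  intro m hm
  change Q.eval ((2 : k) ^ m) = 0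
  rw [← h _ (pow_ne_zero _ two_ne_zero), hm, zero_mul]

end Pool.Agent.H159R3.Exp
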