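import Pool.Agent.H952R2.Sextic.CommonZero
import Pool.Agent.H159R3.Exp.Laur

/-!
Descent of rational curves to number fields.
-/

set_option autoImplicit false

namespace Pool.Agent.H159R3.Exp

open MvPolynomial IsDedekindDomain
open scoped NumberField

theorem Laur.zero_of_zero {k : Type*} [Field k] [CharZero k] {φ : k → k} (hφ : Laur φ)
    (h : ∀ m : ℕ, φ (2 ^ m) = 0) (t : k) (ht : t ≠ 0) : φ t = 0 := by
  by_contra hcon
  have h1 := hφ.finite_zeros ⟨t, ht, hcon⟩
  rw [show {m : ℕ | φ (2 ^ m) = 0} = Set.univ from Set.eq_univ_of_forall h] at h1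
  exact Set.infinite_univ h1

/-- the point with index `k` of the curve with the coefficients `κ` -/
noncomputable def cpt {M : Type*} [Field M] {n D : ℕ} (e : ℕ) (κ : Fin n × Fin (D + 1) → M) (t : M)
    (j : Fin n) : M := (∑ l : Fin (D + 1), κ (j, l) * t ^ (l : ℕ)) / t ^ e

theorem cpt_laur {M : Type*} [Field M] {n D : ℕ} (e : ℕ) (κ : Fin n × Fin (D + 1) → M)
    (j : Fin n) : Laur (fun t => cpt e κ t j) := by
  refine ⟨e, ∑ l : Fin (D + 1), Polynomial.C (κ (j, l)) * Polynomial.X ^ (l : ℕ), fun t ht => ?_⟩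
  unfold cpt
  rw [div_mul_cancel₀ _ (pow_ne_zero _ ht), Polynomial.eval_finsetSum]
  simp

/-- generic version -/
noncomputable def gpt {K : Type*} [Field K] {n D : ℕ} (e k : ℕ) (j : Fin n) :
    MvPolynomial (Fin n × Fin (D + 1)) K :=
  (∑ l : Fin (D + 1), X (j, l) * C ((2 ^ k) ^ (l : ℕ))) * C (((2 ^ k) ^ e)⁻¹)

theorem aeval_gpt {K M : Type*} [Field K] [Field M] [Algebra K M] {n D : ℕ} (e k : ℕ) (j : Fin n)
    (κ : Fin n × Fin (D + 1) → M) : aeval κ (gpt (K := K) e k j) = cpt e κ (2 ^ k) j := by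
  unfold gpt cpt
  simp only [map_mul, map_sum, aeval_X, aeval_C, map_pow, map_inv₀, map_ofNat, algebraMap_eq]
  rw [div_eq_mul_inv]

theorem descend {K : Type} [Field K] [NumberField K] {n : ℕ} {ι : Type}
    (F : ι → MvPolynomial (Fin n) K) (W : MvPolynomial (Fin n ⊕ Fin n) K) [Algebra K ℂ]
    (v : ℂ → Fin n → ℂ) (hv : ∀ j, Laur (fun t => v t j))
    (hF : ∀ i t, t ≠ 0 → aeval (v t) (F i) = 0) (k1 : ℕ)
    (hW : aeval (Sum.elim (v 1) (v (2 ^ k1))) W ≠ 0) :
    ∃ (L : Type) (_ : Field L) (_ : Algebra K L) (_ : NumberField L) (_ : FiniteDimensional K L)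
      (v' : L → Fin n → L), (∀ j, Laur (fun t => v' t j)) ∧
        (∀ i t, t ≠ 0 → aeval (v' t) (F i) = 0) ∧
        aeval (Sum.elim (v' 1) (v' (2 ^ k1))) W ≠ 0 := by
  classical
  obtain ⟨e, Q, hQ⟩ := Laur.common v hv
  let D := Finset.univ.sup (fun j => (Q j).natDegree)
  let κ0 : Fin n × Fin (D + 1) → ℂ := fun p => (Q p.1).coeff p.2
  have hκ0 : ∀ t, t ≠ 0 → cpt e κ0 t = v t := by
    intro t ht
    funext j
    rw [hQ t ht j]
    unfold cpt
    congr 1
    rw [Polynomial.eval_eq_sum_range' (n := D + 1) (Nat.lt_succ_of_le (Finset.le_sup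
      (f := fun j => (Q j).natDegree) (Finset.mem_univ j)))]
    rw [Finset.sum_range]
  have hgF : ∀ (M : Type) [Field M] [Algebra K M] (κ : Fin n × Fin (D + 1) → M) (k : ℕ)
      (p : MvPolynomial (Fin n) K),
      aeval κ (bind₁ (gpt (K := K) (D := D) e k) p) = aeval (cpt e κ (2 ^ k)) p := by
    intro M _ _ κ k p
    rw [aeval_bind₁]
    congr 2
    funext j
    rw [aeval_gpt]
  have hgW : ∀ (M : Type) [Field M] [Algebra K M] (κ : Fin n × Fin (D + 1) → M),
      aeval κ (bind₁ (Sum.elim (gpt (K := K) (D := D) e 0) (gpt (K := K) (D := D) e k1)) W)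
        = aeval (Sum.elim (cpt e κ 1) (cpt e κ (2 ^ k1))) W := by
    intro M _ _ κ
    rw [aeval_bind₁]
    congr 2
    funext j
    rcases j with j | j
    · simp only [Sum.elim_inl]
      rw [aeval_gpt, pow_zero]
    · simp only [Sum.elim_inr]
      rw [aeval_gpt]
  obtain ⟨κ, hκ, hκW⟩ := H952R2.Sextic.transfer (k := K) (kb := AlgebraicClosure K)
    (fun x : ι × ℕ => bind₁ (gpt (K := K) (D := D) e x.2) (F x.1))
    (bind₁ (Sum.elim (gpt (K := K) (D := D) e 0) (gpt (K := K) (D := D) e k1)) W)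
    ⟨κ0, fun x => by
      rw [hgF ℂ, hκ0 _ (pow_ne_zero _ two_ne_zero)]
      exact hF _ _ (pow_ne_zero _ two_ne_zero), by
      rw [hgW ℂ, hκ0 _ (pow_ne_zero _ two_ne_zero), hκ0 _ one_ne_zero]
      exact hW⟩
  let L := IntermediateField.adjoin K (Set.range κ)
  have hfinL : FiniteDimensional K L := by
    apply IntermediateField.finiteDimensional_adjoin
    intro x _
    exact Algebra.IsIntegral.isIntegral x
  have hNF : NumberField L := NumberField.of_module_finite K L
  let κL : Fin n × Fin (D + 1) → L :=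
    fun j => ⟨κ j, IntermediateField.subset_adjoin K _ ⟨j, rfl⟩⟩
  refine ⟨L, inferInstance, inferInstance, hNF, hfinL, cpt e κL, cpt_laur e κL, ?_, ?_⟩
  · intro i
    apply Laur.zero_of_zero (Laur.eval₂ (algebraMap K L) (cpt e κL) (cpt_laur e κL) (F i))
    intro m
    change aeval (cpt e κL (2 ^ m)) (F i) = 0
    rw [← hgF L]
    apply (algebraMap L (AlgebraicClosure K)).injective
    rw [map_zero, ← hκ (i, m), ← aeval_algebraMap_apply]
    rfl
  · rw [← hgW L]
    intro h0
    apply hκW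
    have h1 := congrArg (algebraMap L (AlgebraicClosure K)) h0
    rw [map_zero, ← aeval_algebraMap_apply] at h1
    exact h1

theorem integral_pts {L : Type} [Field L] [NumberField L] {n : ℕ} (v : L → Fin n → L)
    (hv : ∀ j, Laur (fun t => v t j)) :
    ∃ S : Set (HeightOneSpectrum (𝓞 L)), S.Finite ∧ ∀ (k : ℕ) j, v (2 ^ k) j ∈ S.integer L := by
  classical
  obtain ⟨e, Q, hQ⟩ := Laur.common v hv
  let S : Set (HeightOneSpectrum (𝓞 L)) :=
    (⋃ j, ⋃ l ∈ (Q j).support, HeightOneSpectrum.Support (𝓞 L) ((Q j).coeff l)) ∪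
      HeightOneSpectrum.Support (𝓞 L) (2⁻¹ : L)
  have hS : S.Finite := by
    refine Set.Finite.union (Set.finite_iUnion fun j => ?_) (HeightOneSpectrum.Support.finite _ _)
    exact Set.Finite.biUnion (Finset.finite_toSet _) fun l _ => HeightOneSpectrum.Support.finite _ _
  have hmem : ∀ x : L, HeightOneSpectrum.Support (𝓞 L) x ⊆ S → x ∈ S.integer L := by
    intro x hx v hv
    by_contra hcon
    exact hv (hx (not_le.mp hcon))
  have hc : ∀ j, ∀ l ∈ (Q j).support, (Q j).coeff l ∈ S.integer L := fun j l hl =>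
    hmem _ (fun v hv => Or.inl (Set.mem_iUnion.mpr ⟨j, Set.mem_biUnion hl hv⟩))
  have h2int' : (2⁻¹ : L) ∈ S.integer L := hmem _ (fun v hv => Or.inr hv)
  have h2int : (2 : L) ∈ S.integer L := by
    have : (2 : L) = 1 + 1 := by norm_num
    rw [this]
    exact (S.integer L).add_mem (S.integer L).one_mem (S.integer L).one_mem
  refine ⟨S, hS, fun k j => ?_⟩
  rw [hQ _ (pow_ne_zero _ two_ne_zero) j, div_eq_mul_inv]
  apply (S.integer L).mul_mem
  · rw [Polynomial.eval_eq_sum, Polynomial.sum_def]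
    apply (S.integer L).sum_mem
    intro l hl
    exact (S.integer L).mul_mem (hc j l hl) (pow_mem (pow_mem h2int k) l)
  · rw [← inv_pow, ← inv_pow]
    exact pow_mem (pow_mem h2int' k) e

end Pool.Agent.H159R3.Exp
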