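import Pool.Agent.H159R3.Exp.Curve
import Pool.Agent.H159R3.Exp.Descend

/-!
Integral points and entire curves of exponential type on arbitrary affine varieties.
-/

set_option autoImplicit false

namespace Pool.Agent.H159R3.Exp

open Filter MvPolynomial IsDedekindDomain Pool.Agent.H159R3.NV
open scoped NumberField Topology

/-- The coordinates of `f` are polynomials in the variable `z` and in finitely many exponentials
`exp (g i z)` of entire functions `g i`. -/
def ExpPoly {n : ℕ} (f : ℂ → Fin n → ℂ) : Prop :=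
  ∃ (m : ℕ) (g : Fin m → ℂ → ℂ) (P : Fin n → MvPolynomial (Fin (m + 1)) ℂ),
    (∀ i, Differentiable ℂ (g i)) ∧
      ∀ z j, f z j = eval (Fin.cons z fun i => Complex.exp (g i z) : Fin (m + 1) → ℂ) (P j)

/-- `f` is entire and becomes a polynomial in `z` and in exponentials of entire functions after
composition with some nonconstant entire function `h` (for instance the identity). -/
def ExpType {n : ℕ} (f : ℂ → Fin n → ℂ) : Prop :=
  Differentiable ℂ f ∧ ∃ h : ℂ → ℂ, Differentiable ℂ h ∧ (∃ z w, h z ≠ h w) ∧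
    ExpPoly (fun z => f (h z))

theorem comp_ne {F h : ℂ → ℂ} (hF : Differentiable ℂ F) (hF0 : ∃ z, F z ≠ 0)
    (hh : Differentiable ℂ h) (hc : ∃ z w, h z ≠ h w) : ∃ z, F (h z) ≠ 0 := by
  obtain ⟨x, hx⟩ := hF0
  obtain ⟨z, w, hzw⟩ := hc
  have h1 : ∃ y, h y - h z ≠ 0 := ⟨w, sub_ne_zero.mpr (Ne.symm hzw)⟩
  obtain ⟨y, hy⟩ := h1
  have h2 := ev_ne (hh.sub_const (h z)) hy z
  have h3 := ev_ne hF hx (h z)
  have h4 : Tendsto h (𝓝[≠] z) (𝓝[≠] (h z)) := by
    apply tendsto_nhdsWithin_of_tendsto_nhds_of_eventually_within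
    · exact (hh.continuous.tendsto z).mono_left nhdsWithin_le_nhds
    · filter_upwards [h2] with a ha
      exact sub_ne_zero.mp ha
  obtain ⟨a, ha⟩ := (h4.eventually h3).exists
  exact ⟨a, ha⟩

/-- Analytic part: rational curves from entire curves of exponential type. -/
theorem rational_curve {n : ℕ} (f : ℂ → Fin n → ℂ) (hf : ExpPoly f) (w : Fin n → ℂ) (z0 : ℂ)
    (hd : deriv (fun z => ∑ j, w j * f z j) z0 ≠ 0) :
    ∃ v : ℂ → Fin n → ℂ, (∀ j, Laur (fun t => v t j)) ∧ v 1 = f z0 ∧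
      (∃ k : ℕ, ∑ j, w j * v (2 ^ k) j ≠ ∑ j, w j * v 1 j) ∧
      ∀ F : MvPolynomial (Fin n) ℂ, (∀ z, eval (f z) F = 0) →
        ∀ t, t ≠ 0 → eval (v t) F = 0 := by
  obtain ⟨m, g, P, hg, hP⟩ := hf
  have hf' : ∀ z, f z = fun j => eval (vec g z) (P j) := fun z => funext fun j => hP z j
  obtain ⟨v, hv, hv1, ⟨t, ht, hvt⟩, hvF⟩ := curve g hg P w z0 (by
    have : (fun z => ∑ j, w j * eval (vec g z) (P j)) = fun z => ∑ j, w j * f z j := by
      funext z
      exact Finset.sum_congr rfl fun j _ => by rw [hP z j]; rfl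
    rw [this]
    exact hd)
  refine ⟨v, hv, ?_, ?_, ?_⟩
  · funext j
    rw [hv1 j, hf' z0]
  · by_contra hcon
    push Not at hcon
    apply hvt
    have h1 : Laur (fun t => ∑ j, w j * v t j + (-(∑ j, w j * v 1 j))) := by
      apply Laur.add _ (Laur.const _)
      have h2 := Laur.eval v hv (∑ j, C (w j) * X j)
      simpa using h2
    have h3 := h1.zero_of_zero (fun k => by rw [hcon k]; ring) t ht
    linear_combination h3
  · intro F hF t ht
    apply hvF F _ t ht
    intro z
    rw [← hf' z]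
    exact hF z

/-- `V(O_S)` for the affine scheme `V` over `𝓞 K` given by the polynomials `F i`. -/
def intPoints {K : Type} [Field K] {ι : Type} {n : ℕ}
    (F : ι → MvPolynomial (Fin n) (𝓞 K)) (L : Type) [Field L] [NumberField L] [Algebra K L]
    (S : Set (HeightOneSpectrum (𝓞 L))) : Set (Fin n → L) :=
  {x | (∀ j, x j ∈ S.integer L) ∧
    ∀ i, eval₂ ((algebraMap K L).comp (algebraMap (𝓞 K) K)) x (F i) = 0}

/-- Condition (ii): `V(O_S) ∖ V'(O_S)` is always finite. Here `V` is given by `F` and `V'` is the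
closed subscheme of `V` given by `G`. -/
def FinitelyManyIntegral {K : Type} [Field K] {ι ι' : Type} {n : ℕ}
    (F : ι → MvPolynomial (Fin n) (𝓞 K)) (G : ι' → MvPolynomial (Fin n) (𝓞 K)) : Prop :=
  ∀ (L : Type) [Field L] [NumberField L] [Algebra K L] (S : Set (HeightOneSpectrum (𝓞 L))),
    S.Finite → (intPoints F L S \ intPoints G L S).Finite

/-- Condition (i) for the entire curves of exponential type. -/
def ExpCurvesIn {K : Type} [Field K] {ι ι' : Type} {n : ℕ} (σ : K →+* ℂ)
    (F : ι → MvPolynomial (Fin n) (𝓞 K)) (G : ι' → MvPolynomial (Fin n) (𝓞 K)) : Prop :=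
  ∀ f : ℂ → Fin n → ℂ, ExpType f →
    (∀ z i, eval₂ (σ.comp (algebraMap (𝓞 K) K)) (f z) (F i) = 0) → (∃ z w, f z ≠ f w) →
    ∀ z j, eval₂ (σ.comp (algebraMap (𝓞 K) K)) (f z) (G j) = 0

theorem differentiable_eval {n : ℕ} {f : ℂ → Fin n → ℂ} (hf : Differentiable ℂ f)
    (G : MvPolynomial (Fin n) ℂ) : Differentiable ℂ (fun z => eval (f z) G) := by
  have hfj : ∀ j, Differentiable ℂ (fun z => f z j) := fun j => by
    rw [differentiable_pi] at hf
    exact hf j
  have : (fun z => eval (f z) G) = fun z => ∑ α ∈ G.support, G.coeff α * ∏ j, f z j ^ α j := by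
    funext z
    rw [eval_eq']
  rw [this]
  apply Differentiable.fun_sum
  intro α _
  apply Differentiable.const_mul
  apply Differentiable.fun_finset_prod
  intro j _
  exact (hfj j).pow _

/-- The implication (ii) ⟹ (i) for entire curves of exponential type in affine varieties. -/
theorem main {K : Type} [Field K] [NumberField K] {ι ι' : Type} {n : ℕ}
    (F : ι → MvPolynomial (Fin n) (𝓞 K)) (G : ι' → MvPolynomial (Fin n) (𝓞 K))
    (hfin : FinitelyManyIntegral F G) (σ : K →+* ℂ) : ExpCurvesIn σ F G := by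
  classical
  intro f0 hf0 hfF0 hnc0 zG i'
  by_contra hG
  obtain ⟨hf0d, h, hh, hhc, hf⟩ := hf0
  set φ : 𝓞 K →+* ℂ := σ.comp (algebraMap (𝓞 K) K) with hφ
  -- replace the curve by a composition
  set f : ℂ → Fin n → ℂ := fun z => f0 (h z) with hfdef
  have hfd : Differentiable ℂ f := hf0d.comp hh
  have hfF : ∀ z i, eval₂ φ (f z) (F i) = 0 := fun z i => hfF0 (h z) i
  obtain ⟨z2, hz2⟩ : ∃ z, eval₂ φ (f z) (G i') ≠ 0 := by
    have h1 := comp_ne (F := fun z => eval (f0 z) (map φ (G i'))) (differentiable_eval hf0d _)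
      ⟨zG, by rw [← eval₂_eq_eval_map]; exact hG⟩ hh hhc
    obtain ⟨z, hz⟩ := h1
    exact ⟨z, by rw [eval₂_eq_eval_map]; exact hz⟩
  have hfj : ∀ j, Differentiable ℂ (fun z => f z j) := fun j => by
    rw [differentiable_pi] at hfd
    exact hfd j
  obtain ⟨j1, hj1⟩ : ∃ j, ∃ z, deriv (fun z => f z j) z ≠ 0 := by
    obtain ⟨z, w, hzw⟩ := hnc0
    obtain ⟨j, hj⟩ := Function.ne_iff.mp hzw
    have h1 : Differentiable ℂ (fun z => f0 z j) := by
      rw [differentiable_pi] at hf0d
      exact hf0d j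
    obtain ⟨a, ha⟩ := comp_ne (F := fun y => f0 y j - f0 (h 0) j) (h1.sub_const _) (by
      by_contra hcon
      push Not at hcon
      exact hj ((sub_eq_zero.mp (hcon z)).trans (sub_eq_zero.mp (hcon w)).symm)) hh hhc
    refine ⟨j, ?_⟩
    by_contra hcon
    push Not at hcon
    apply ha
    rw [sub_eq_zero]
    exact is_const_of_deriv_eq_zero (hfj j) hcon a 0
  obtain ⟨zd, hzd⟩ := hj1
  have hdj : Differentiable ℂ (deriv (fun z => f z j1)) :=
    ((hfj j1).contDiff (n := 2)).differentiable_deriv_two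
  have hGd : Differentiable ℂ (fun z => eval₂ φ (f z) (G i')) := by
    have : (fun z => eval₂ φ (f z) (G i')) = fun z => eval (f z) (map φ (G i')) :=
      funext fun z => eval₂_eq_eval_map _ _ _
    rw [this]
    exact differentiable_eval hfd _
  obtain ⟨z0, hz0, hz0G⟩ := ((ev_ne hdj hzd 0).and (ev_ne hGd hz2 0)).exists
  obtain ⟨v, hv, hv1, ⟨k1, hk1⟩, hvF⟩ := rational_curve f hf (Pi.single j1 1) z0 (by
    have : (fun z => ∑ j, (Pi.single j1 1 : Fin n → ℂ) j * f z j) = fun z => f z j1 := by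
      funext z
      rw [Finset.sum_eq_single j1]
      · simp
      · intro j _ hj
        simp [hj]
      · simp
    rw [this]
    exact hz0)
  have hsum : ∀ t, ∑ j, (Pi.single j1 1 : Fin n → ℂ) j * v t j = v t j1 := by
    intro t
    rw [Finset.sum_eq_single j1]
    · simp
    · intro j _ hj
      simp [hj]
    · simp
  rw [hsum, hsum] at hk1
  -- descend
  let _ := σ.toAlgebra
  let FK : ι → MvPolynomial (Fin n) K := fun i => map (algebraMap (𝓞 K) K) (F i)
  have hmap : ∀ (M : Type) [Field M] [Algebra K M] (y : Fin n → M)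
      (p : MvPolynomial (Fin n) (𝓞 K)), aeval y (map (algebraMap (𝓞 K) K) p)
        = eval₂ ((algebraMap K M).comp (algebraMap (𝓞 K) K)) y p := by
    intro M _ _ y p
    rw [aeval_def, eval₂_map]
  obtain ⟨L, _, _, hNF, -, v', hv', hv'F, hv'W⟩ := descend FK
    (rename Sum.inl (map (algebraMap (𝓞 K) K) (G i')) * (X (Sum.inr j1) - X (Sum.inl j1))) v hv
    (fun i t ht => by
      rw [hmap ℂ]
      change eval₂ φ (v t) (F i) = 0
      rw [eval₂_eq_eval_map]
      apply hvF _ _ t ht
      intro z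
      rw [← eval₂_eq_eval_map]
      exact hfF z i) k1 (by
    rw [map_mul, aeval_rename, map_sub, aeval_X, aeval_X]
    simp only [Sum.elim_comp_inl, Sum.elim_inr, Sum.elim_inl]
    rw [hmap ℂ, hv1]
    rw [hv1] at hk1
    exact mul_ne_zero hz0G (sub_ne_zero.mpr hk1))
  rw [map_mul, aeval_rename, map_sub, aeval_X, aeval_X] at hv'W
  simp only [Sum.elim_comp_inl, Sum.elim_inr, Sum.elim_inl] at hv'W
  have hGL := left_ne_zero_of_mul hv'W
  have hne := sub_ne_zero.mp (right_ne_zero_of_mul hv'W)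
  obtain ⟨S, hS, hint⟩ := integral_pts v' hv'
  -- infinitely many integral points
  have hGLaur : Laur (fun t => aeval (v' t) (map (algebraMap (𝓞 K) K) (G i'))) :=
    Laur.eval₂ (algebraMap K L) v' hv' _
  have hzeros : {k : ℕ | aeval (v' (2 ^ k)) (map (algebraMap (𝓞 K) K) (G i')) = 0}.Finite :=
    hGLaur.finite_zeros ⟨1, one_ne_zero, hGL⟩
  have hfib : ∀ c : L, {k : ℕ | v' (2 ^ k) j1 = c}.Finite := by
    intro c
    have h1 : Laur (fun t => v' t j1 + -c) := (hv' j1).add (Laur.const _)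
    have h2 : ∃ t, t ≠ 0 ∧ v' t j1 + -c ≠ 0 := by
      by_contra hcon
      push Not at hcon
      apply hne
      have h3 := hcon (2 ^ k1) (pow_ne_zero _ two_ne_zero)
      have h4 := hcon 1 one_ne_zero
      linear_combination h3 - h4
    refine (h1.finite_zeros h2).subset ?_
    intro k hk
    change v' (2 ^ k) j1 + -c = 0
    rw [show v' (2 ^ k) j1 = c from hk]
    ring
  have hinf : {k : ℕ | aeval (v' (2 ^ k)) (map (algebraMap (𝓞 K) K) (G i')) = 0}ᶜ.Infinite :=
    hzeros.infinite_compl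
  apply hinf
  have h1 := hfin L S hS
  have h2 : {k : ℕ | aeval (v' (2 ^ k)) (map (algebraMap (𝓞 K) K) (G i')) = 0}ᶜ ⊆
      ⋃ x ∈ intPoints F L S \ intPoints G L S, {k : ℕ | v' (2 ^ k) j1 = x j1} := by
    intro k hk
    refine Set.mem_biUnion (x := v' (2 ^ k)) ⟨⟨fun j => hint k j, fun i => ?_⟩, ?_⟩ rfl
    · rw [← hmap L]
      exact hv'F i _ (pow_ne_zero _ two_ne_zero)
    · intro hmem
      apply hk
      change aeval (v' (2 ^ k)) (map (algebraMap (𝓞 K) K) (G i')) = 0
      rw [hmap L]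
      exact hmem.2 i'
  exact (h1.biUnion fun x _ => hfib (x j1)).subset h2

end Pool.Agent.H159R3.Exp
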