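import Pool.Agent.H159R3.NV.Final

/-!
Borel's theorem in the form of a specialisation principle.
-/

set_option autoImplicit false

namespace Pool.Agent.H159R3.Exp

open Filter Metric Set Topology Pool.Agent.H159R3.NV

theorem const_of_exp {G : ℂ → ℂ} (hG : Differentiable ℂ G) {a : ℂ}
    (h : ∀ z, Complex.exp (G z) = a) (z w : ℂ) : G z = G w := by
  apply is_const_of_deriv_eq_zero hG
  intro z
  have h1 : HasDerivAt (fun z => Complex.exp (G z)) (Complex.exp (G z) * deriv G z) z :=
    (hG z).hasDerivAt.cexp
  have h2 : (fun z => Complex.exp (G z)) = fun _ => a := funext h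
  rw [h2] at h1
  have h3 := h1.unique (hasDerivAt_const z a)
  exact (mul_eq_zero.mp h3).resolve_left (Complex.exp_ne_zero _)

/-- Borel's theorem: every linear relation between exponentials of entire functions is a
consequence of the relations `exp (G + c) = exp c * exp G`. -/
theorem borel_spec {B : Type*} [AddCommGroup B] [Module ℂ B] {ι : Type} [DecidableEq ι]
    (G : ι → ℂ → ℂ) (hG : ∀ i, Differentiable ℂ (G i)) (x : ι → B)
    (hx : ∀ i j (c : ℂ), (∀ z, G i z = G j z + c) → x i = Complex.exp c • x j) :
    ∀ (S : Finset ι) (c : ι → ℂ), (∀ z, ∑ i ∈ S, c i * Complex.exp (G i z) = 0) →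
      ∑ i ∈ S, c i • x i = 0 := by
  intro S
  induction S using Finset.strongInduction with
  | H S ih =>
    intro c hc
    by_cases hp : ∃ i ∈ S, ∃ j ∈ S, i ≠ j ∧ ∃ a : ℂ, ∀ z, G i z = G j z + a
    · obtain ⟨i, hi, j, hj, hij, a, ha⟩ := hp
      let c' : ι → ℂ := Function.update c j (c j + c i * Complex.exp a)
      have hjS : j ∈ S.erase i := Finset.mem_erase.mpr ⟨hij.symm, hj⟩
      have e1 : ∀ (y : ι → ℂ), ∑ k ∈ (S.erase i).erase j, c' k * y k
            = ∑ k ∈ (S.erase i).erase j, c k * y k := by
        intro y
        refine Finset.sum_congr rfl fun k hk => ?_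
        have hkj : k ≠ j := (Finset.mem_erase.mp hk).1
        simp only [c', Function.update_of_ne hkj]
      have e2 : ∑ k ∈ (S.erase i).erase j, c' k • x k = ∑ k ∈ (S.erase i).erase j, c k • x k := by
        refine Finset.sum_congr rfl fun k hk => ?_
        have hkj : k ≠ j := (Finset.mem_erase.mp hk).1
        simp only [c', Function.update_of_ne hkj]
      have h1 := ih (S.erase i) (Finset.erase_ssubset hi) c' (by
          intro w
          rw [← hc w, ← Finset.add_sum_erase S _ hi, ← Finset.add_sum_erase (S.erase i) _ hjS,
            ← Finset.add_sum_erase (S.erase i) (fun k => c k * Complex.exp (G k w)) hjS,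
            e1 (fun k => Complex.exp (G k w))]
          simp only [c', Function.update_self]
          rw [ha w, Complex.exp_add]
          ring)
      rw [← h1, ← Finset.add_sum_erase S _ hi, ← Finset.add_sum_erase (S.erase i) _ hjS,
        ← Finset.add_sum_erase (S.erase i) (fun k => c' k • x k) hjS, e2]
      simp only [c', Function.update_self]
      rw [hx i j a ha, add_smul, smul_smul]
      abel
    · push Not at hp
      set N : ℕ := (S.card - 1) ^ 2 + 1 with hN
      have hN0' : N ≠ 0 := by omega
      have hN0 : (N : ℂ) ≠ 0 := by exact_mod_cast hN0' 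
      have h1 := powers_independent (s := S.card) (N := N) (by omega)
        (fun i z => Complex.exp (G i z / N)) (fun i => ((hG i).div_const _).cexp) S le_rfl
        (fun i _ => ⟨0, Complex.exp_ne_zero _⟩)
        (fun i hi j hj hij a => by
          by_contra hcon
          push Not at hcon
          have h2 : ∀ z, Complex.exp ((G i z - G j z) / N) = a := by
            intro z
            have h3 := hcon z
            rw [sub_div, Complex.exp_sub, div_eq_iff (Complex.exp_ne_zero _)]
            exact sub_eq_zero.mp h3
          have h4 := const_of_exp (((hG i).sub (hG j)).div_const (N : ℂ)) h2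
          obtain ⟨w, hw⟩ := hp i hi j hj hij (G i 0 - G j 0)
          apply hw
          have h5 := h4 w 0
          simp only [Pi.sub_apply] at h5
          rw [div_left_inj' hN0] at h5
          linear_combination h5)
        c (by
          intro z
          rw [← hc z]
          refine Finset.sum_congr rfl fun i _ => ?_
          rw [← Complex.exp_nat_mul, mul_div_cancel₀ _ hN0])
      apply Finset.sum_eq_zero
      intro i hi
      rw [h1 i hi, zero_smul]

end Pool.Agent.H159R3.Exp
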