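import Pool.Agent.H159R3.Exp.Borel

/-!
Polynomial relations between the variable and exponentials of entire functions.
-/

set_option autoImplicit false

namespace Pool.Agent.H159R3.Exp

open Filter Metric Set Topology Pool.Agent.H159R3.NV MvPolynomial

/-- Every polynomial relation between the variable and exponentials of entire functions is a
consequence of the multiplicative relations between the exponentials. -/
theorem core {m : ℕ} (g : Fin m → ℂ → ℂ) (hg : ∀ i, Differentiable ℂ (g i)) (τ : Fin m → ℂ)
    (hτ : ∀ (a b : Fin m → ℕ) (c : ℂ),
      (∀ z, ∑ i, (a i : ℂ) * g i z = ∑ i, (b i : ℂ) * g i z + c) →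
      ∏ i, τ i ^ a i = Complex.exp c * ∏ i, τ i ^ b i)
    (z' : ℂ) (Q : MvPolynomial (Fin (m + 1)) ℂ)
    (hQ : ∀ z, eval (Fin.cons z fun i => Complex.exp (g i z) : Fin (m + 1) → ℂ) Q = 0) :
    eval (Fin.cons z' τ : Fin (m + 1) → ℂ) Q = 0 := by
  classical
  have h1 := borel_spec (B := ℂ) (ι := Fin (m + 1) →₀ ℕ)
    (fun α ζ => (α 0 : ℂ) * ζ + ∑ i : Fin m, (α i.succ : ℂ) * g i (Complex.exp ζ))
    (fun α => by
      apply Differentiable.add (differentiable_id.const_mul _)
      apply Differentiable.fun_sum
      intro i _
      exact ((hg i).comp Complex.differentiable_exp).const_mul _)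
    (fun α => z' ^ α 0 * ∏ i : Fin m, τ i ^ α i.succ)
    (fun α β c h => by
      have h2 : (α 0 : ℂ) = (β 0 : ℂ) := by
        have h3 := h 0
        have h4 := h (0 + 2 * Real.pi * Complex.I)
        simp only [Complex.exp_periodic 0] at h4
        have h5 : (2 * Real.pi * Complex.I : ℂ) ≠ 0 := Complex.two_pi_I_ne_zero
        apply mul_right_cancel₀ h5
        linear_combination h4 - h3
      have h2' : α 0 = β 0 := by exact_mod_cast h2
      have h6 : ∀ z, (∑ i : Fin m, (α i.succ : ℂ) * g i z)
          - (∑ i : Fin m, (β i.succ : ℂ) * g i z + c) = 0 := by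
        apply zero_of_punctured
        · apply Differentiable.sub
          · apply Differentiable.fun_sum
            intro i _
            exact (hg i).const_mul _
          · apply Differentiable.add_const
            apply Differentiable.fun_sum
            intro i _
            exact (hg i).const_mul _
        · intro w hw
          have h8 := h (Complex.log w)
          simp only [Complex.exp_log hw] at h8
          linear_combination h8 - Complex.log w * h2
      have h7 := hτ (fun i => α i.succ) (fun i => β i.succ) c
        (fun z => sub_eq_zero.mp (h6 z))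
      rw [smul_eq_mul, h2', h7]
      ring)
    Q.support Q.coeff (fun ζ => by
      rw [← hQ (Complex.exp ζ), eval_eq']
      refine Finset.sum_congr rfl fun α _ => ?_
      congr 1
      rw [Fin.prod_univ_succ, Fin.cons_zero, Complex.exp_add, Complex.exp_nat_mul,
        Complex.exp_sum]
      congr 1
      refine Finset.prod_congr rfl fun i _ => ?_
      rw [Fin.cons_succ, Complex.exp_nat_mul])
  rw [eval_eq', ← h1]
  refine Finset.sum_congr rfl fun α _ => ?_
  rw [Fin.prod_univ_succ, Fin.cons_zero, smul_eq_mul]
  simp only [Fin.cons_succ]

end Pool.Agent.H159R3.Exp
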