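import Pool.Agent.H159R3.Exp.Core
import Pool.Agent.H159R3.Exp.Laur

/-!
From entire curves given by polynomials in the variable and in exponentials to rational curves.
-/

set_option autoImplicit false

namespace Pool.Agent.H159R3.Exp

open Filter Metric Set Topology Pool.Agent.H159R3.NV MvPolynomial

theorem exists_b {m : ℕ} (u c : Fin m → ℂ) (h : ∑ i, c i * u i ≠ 0) :
    ∃ b : Fin m → ℤ, (∀ q : Fin m → ℤ, ∑ i, (q i : ℂ) * u i = 0 → ∑ i, q i * b i = 0) ∧
      ∑ i, c i * (b i : ℂ) ≠ 0 := by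
  classical
  have h1 : ∃ ψ : ℂ →ₗ[ℚ] ℚ, ∑ i, c i * ((ψ (u i) : ℚ) : ℂ) ≠ 0 := by
    by_contra hcon
    push Not at hcon
    let B := Module.Basis.ofVectorSpace ℚ ℂ
    let T := Finset.univ.biUnion (fun i => (B.repr (u i)).support)
    have h2 : ∀ i, u i = ∑ k ∈ T, ((B.coord k (u i) : ℚ) : ℂ) * B k := by
      intro i
      conv_lhs => rw [← B.linearCombination_repr (u i)]
      rw [Finsupp.linearCombination_apply]
      rw [Finsupp.sum_of_support_subset (s := T) _ (by
        intro k hk
        exact Finset.mem_biUnion.mpr ⟨i, Finset.mem_univ i, hk⟩) _ (by simp)]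
      refine Finset.sum_congr rfl fun k _ => ?_
      rw [Module.Basis.coord_apply, Rat.smul_def]
    apply h
    have h3 : ∀ i, c i * u i = ∑ k ∈ T, (c i * ((B.coord k (u i) : ℚ) : ℂ)) * B k := by
      intro i
      conv_lhs => rw [h2 i]
      rw [Finset.mul_sum]
      exact Finset.sum_congr rfl fun k _ => by ring
    rw [Finset.sum_congr rfl (fun i _ => h3 i), Finset.sum_comm]
    apply Finset.sum_eq_zero
    intro k _
    rw [← Finset.sum_mul, hcon (B.coord k), zero_mul]
  obtain ⟨ψ, hψ⟩ := h1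
  set D : ℕ := ∏ j, (ψ (u j)).den with hD
  have hD0 : (D : ℚ) ≠ 0 := by
    rw [hD]
    exact_mod_cast Finset.prod_ne_zero_iff.mpr fun j _ => (ψ (u j)).den_nz
  have hint : ∀ j, ∃ k : ℤ, (k : ℚ) = D * ψ (u j) := by
    intro j
    obtain ⟨e, he⟩ : (ψ (u j)).den ∣ D := Finset.dvd_prod_of_mem _ (Finset.mem_univ j)
    refine ⟨e * (ψ (u j)).num, ?_⟩
    rw [he]
    push_cast
    have := Rat.mul_den_eq_num (ψ (u j))
    linear_combination - (e : ℚ) * this
  choose b hb using hint
  refine ⟨b, ?_, ?_⟩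
  · intro q hq
    have h2 : ∑ i, (q i : ℚ) * ψ (u i) = 0 := by
      have h3 : ψ (∑ i, (q i : ℂ) * u i) = 0 := by rw [hq, map_zero]
      rw [map_sum] at h3
      rw [← h3]
      refine Finset.sum_congr rfl fun i _ => ?_
      have h4 : (q i : ℂ) * u i = (q i : ℚ) • u i := by
        rw [Rat.smul_def]
        push_cast
        rfl
      rw [h4, map_smul, smul_eq_mul]
    have h5 : ((∑ i, q i * b i : ℤ) : ℚ) = 0 := by
      push_cast
      have h6 : ∀ i, (q i : ℚ) * (b i : ℚ) = D * ((q i : ℚ) * ψ (u i)) := fun i => by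
        rw [hb i]; ring
      rw [Finset.sum_congr rfl (fun i _ => h6 i), ← Finset.mul_sum, h2, mul_zero]
    exact_mod_cast h5
  · intro h0
    apply hψ
    have h7 : (D : ℂ) ≠ 0 := by exact_mod_cast hD0
    apply mul_left_cancel₀ h7
    rw [mul_zero, ← h0, Finset.mul_sum]
    refine Finset.sum_congr rfl fun i _ => ?_
    have h8 : (b i : ℂ) = D * ((ψ (u i) : ℚ) : ℂ) := by
      have := hb i
      exact_mod_cast congrArg (fun q : ℚ => (q : ℂ)) this
    rw [h8]
    ring

theorem hasDerivAt_eval {σ : Type} [Fintype σ] (v : ℂ → σ → ℂ) (v' : σ → ℂ) (z0 : ℂ)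
    (hv : ∀ l, HasDerivAt (fun z => v z l) (v' l) z0) (P : MvPolynomial σ ℂ) :
    HasDerivAt (fun z => eval (v z) P) (∑ l, eval (v z0) (pderiv l P) * v' l) z0 := by
  classical
  induction P using MvPolynomial.induction_on with
  | C a => simpa using hasDerivAt_const z0 a
  | add p q hp hq =>
    have := hp.add hq
    simp only [map_add, add_mul, Finset.sum_add_distrib]
    exact this
  | mul_X p j hp =>
    have h1 : HasDerivAt (fun z => eval (v z) p * v z j) _ z0 := hp.mul (hv j)
    simp only [map_mul, eval_X]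
    refine h1.congr_deriv ?_
    rw [Finset.sum_mul]
    symm
    have h2 : ∀ l, eval (v z0) (pderiv l (p * X j)) * v' l
        = eval (v z0) (pderiv l p) * v' l * v z0 j + (if l = j then eval (v z0) p * v' l else 0) := by
      intro l
      rw [pderiv_mul, map_add, map_mul, map_mul, eval_X, pderiv_X]
      by_cases hlj : l = j
      · subst hlj
        simp
        ring
      · rw [if_neg hlj, Pi.single_eq_of_ne (Ne.symm hlj)]
        simp
        ring
    rw [Finset.sum_congr rfl (fun l _ => h2 l), Finset.sum_add_distrib, Finset.sum_ite_eq']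
    simp

/-- The vector of the variable and the exponentials -/
noncomputable def vec {m : ℕ} (g : Fin m → ℂ → ℂ) (z : ℂ) : Fin (m + 1) → ℂ :=
  Fin.cons z fun i => Complex.exp (g i z)

theorem core' {m : ℕ} (g : Fin m → ℂ → ℂ) (hg : ∀ i, Differentiable ℂ (g i)) (z0 : ℂ)
    (s : Fin m → ℂ) (hs0 : ∀ i, s i ≠ 0)
    (hs : ∀ q : Fin m → ℤ, ∑ i, (q i : ℂ) * deriv (g i) z0 = 0 → ∏ i, s i ^ q i = 1)
    (z' : ℂ) (Q : MvPolynomial (Fin (m + 1)) ℂ) (hQ : ∀ z, eval (vec g z) Q = 0) :
    eval (Fin.cons z' (fun i => Complex.exp (g i z0) * s i) : Fin (m + 1) → ℂ) Q = 0 := by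
  apply core g hg _ _ z' Q hQ
  intro a b c hab
  have hder : ∀ (a : Fin m → ℕ), HasDerivAt (fun z => ∑ i, (a i : ℂ) * g i z)
      (∑ i, (a i : ℂ) * deriv (g i) z0) z0 := fun a =>
    HasDerivAt.fun_sum fun i _ => ((hg i) z0).hasDerivAt.const_mul _
  have h1 := hder a
  have h2 := (hder b).add_const c
  rw [show (fun z => ∑ i, (a i : ℂ) * g i z) = fun z => ∑ i, (b i : ℂ) * g i z + c from
    funext hab] at h1
  have h3 := h1.unique h2
  have h4 := hs (fun i => (a i : ℤ) - (b i : ℤ)) (by
    push_cast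
    simp only [sub_mul]
    rw [Finset.sum_sub_distrib, h3, sub_self])
  have h5 : ∏ i, s i ^ a i = ∏ i, s i ^ b i := by
    have h6 : ∏ i, s i ^ ((a i : ℤ) - (b i : ℤ)) = (∏ i, s i ^ a i) / ∏ i, s i ^ b i := by
      rw [← Finset.prod_div_distrib]
      refine Finset.prod_congr rfl fun i _ => ?_
      rw [zpow_sub₀ (hs0 i), zpow_natCast, zpow_natCast]
    rw [h6, div_eq_one_iff_eq] at h4
    · exact h4
    · exact Finset.prod_ne_zero_iff.mpr fun i _ => pow_ne_zero _ (hs0 i)
  have h7 : ∏ i, Complex.exp (g i z0) ^ a i = Complex.exp c * ∏ i, Complex.exp (g i z0) ^ b i := by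
    simp only [← Complex.exp_nat_mul]
    rw [← Complex.exp_sum, ← Complex.exp_sum, ← Complex.exp_add, hab z0, add_comm]
  simp only [mul_pow]
  rw [Finset.prod_mul_distrib, Finset.prod_mul_distrib, h5, h7]
  ring

/-- An entire curve given by polynomials in the variable and in exponentials lies in a family of
rational curves. -/
theorem curve {n m : ℕ} (g : Fin m → ℂ → ℂ) (hg : ∀ i, Differentiable ℂ (g i))
    (P : Fin n → MvPolynomial (Fin (m + 1)) ℂ) (w : Fin n → ℂ) (z0 : ℂ)
    (hd : deriv (fun z => ∑ j, w j * eval (vec g z) (P j)) z0 ≠ 0) :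
    ∃ v : ℂ → Fin n → ℂ, (∀ j, Laur (fun t => v t j)) ∧ (∀ j, v 1 j = eval (vec g z0) (P j)) ∧
      (∃ t, t ≠ 0 ∧ ∑ j, w j * v t j ≠ ∑ j, w j * v 1 j) ∧
      ∀ F : MvPolynomial (Fin n) ℂ, (∀ z, eval (fun j => eval (vec g z) (P j)) F = 0) →
        ∀ t, t ≠ 0 → eval (v t) F = 0 := by
  classical
  set Pw : MvPolynomial (Fin (m + 1)) ℂ := ∑ j, C (w j) * P j with hPw
  have hPwe : ∀ y, eval y Pw = ∑ j, w j * eval y (P j) := by
    intro y
    rw [hPw, map_sum]
    refine Finset.sum_congr rfl fun j _ => ?_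
    rw [map_mul, eval_C]
  have hvd : ∀ l, HasDerivAt (fun z => vec g z l)
      ((Fin.cons 1 fun i => Complex.exp (g i z0) * deriv (g i) z0 : Fin (m + 1) → ℂ) l) z0 := by
    intro l
    refine Fin.cases ?_ (fun i => ?_) l
    · simpa [vec] using hasDerivAt_id' z0
    · simpa [vec] using ((hg i) z0).hasDerivAt.cexp
  have h1 := hasDerivAt_eval (vec g) _ z0 hvd Pw
  have h2 : (fun z => eval (vec g z) Pw) = fun z => ∑ j, w j * eval (vec g z) (P j) :=
    funext fun z => hPwe _
  rw [h2] at h1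
  rw [h1.deriv, Fin.sum_univ_succ] at hd
  simp only [Fin.cons_zero, Fin.cons_succ, mul_one] at hd
  set D : Fin (m + 1) → ℂ := fun l => eval (vec g z0) (pderiv l Pw) with hD
  have hclos : ∀ (V : ℂ → Fin (m + 1) → ℂ) (_ : ∀ (Q : MvPolynomial (Fin (m + 1)) ℂ),
      (∀ z, eval (vec g z) Q = 0) → ∀ t, t ≠ 0 → eval (V t) Q = 0) (F : MvPolynomial (Fin n) ℂ),
      (∀ z, eval (fun j => eval (vec g z) (P j)) F = 0) → ∀ t, t ≠ 0 →
      eval (fun j => eval (V t) (P j)) F = 0 := by
    intro V hV F hF t ht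
    have h3 := hV (bind₁ P F) (fun z => by rw [eval, eval₂Hom_bind₁]; exact hF z) t ht
    rw [eval, eval₂Hom_bind₁] at h3
    exact h3
  -- nonconstant
  have hnc : ∀ (V : ℂ → Fin (m + 1) → ℂ) (V' : Fin (m + 1) → ℂ),
      (∀ l, HasDerivAt (fun t => V t l) (V' l) 1) → V 1 = vec g z0 → ∑ l, D l * V' l ≠ 0 →
      ∃ t, t ≠ 0 ∧ ∑ j, w j * eval (V t) (P j) ≠ ∑ j, w j * eval (V 1) (P j) := by
    intro V V' hV hV1 hne
    by_contra hcon
    push Not at hcon
    apply hne
    have h3 := hasDerivAt_eval V V' 1 hV Pw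
    have h4 : (fun t => eval (V t) Pw) =ᶠ[𝓝 1] fun _ => eval (V 1) Pw := by
      filter_upwards [isOpen_ne.mem_nhds (one_ne_zero : (1 : ℂ) ≠ 0)] with t ht
      rw [hPwe, hPwe]
      exact hcon t ht
    have h5 := (hasDerivAt_const (1 : ℂ) (eval (V 1) Pw)).congr_of_eventuallyEq h4
    have h6 := h3.unique h5
    rw [hV1] at h6
    exact h6
  by_cases hD0 : D 0 = 0
  · have hd' : ∑ i : Fin m, (D i.succ * Complex.exp (g i z0)) * deriv (g i) z0 ≠ 0 := by
      intro h0
      apply hd
      have h3 : eval (vec g z0) (pderiv 0 Pw) = 0 := hD0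
      rw [h3, zero_add, ← h0]
      refine Finset.sum_congr rfl fun i _ => ?_
      simp only [hD]
      ring
    obtain ⟨b, hb, hbD⟩ := exists_b _ _ hd'
    let V : ℂ → Fin (m + 1) → ℂ := fun t =>
      Fin.cons z0 fun i => Complex.exp (g i z0) * t ^ b i
    have hV1 : V 1 = vec g z0 := by
      simp [V, vec]
    refine ⟨fun t j => eval (V t) (P j), ?_, ?_, ?_, ?_⟩
    · intro j
      apply Laur.eval
      intro l
      refine Fin.cases ?_ (fun i => ?_) l
      · simpa [V] using Laur.const z0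
      · simpa [V] using (Laur.const (Complex.exp (g i z0))).mul (Laur.zpow (b i))
    · intro j
      simp only
      rw [hV1]
    · apply hnc V (Fin.cons 0 fun i => Complex.exp (g i z0) * b i)
      · intro l
        refine Fin.cases ?_ (fun i => ?_) l
        · simpa [V] using hasDerivAt_const (1 : ℂ) z0
        · have h3 := (hasDerivAt_zpow (b i) (1 : ℂ) (Or.inl one_ne_zero)).const_mul
            (Complex.exp (g i z0))
          simpa [V] using h3
      · exact hV1
      · rw [Fin.sum_univ_succ]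
        simp only [Fin.cons_zero, Fin.cons_succ, mul_zero, zero_add]
        intro h0
        apply hbD
        rw [← h0]
        refine Finset.sum_congr rfl fun i _ => ?_
        ring
    · apply hclos V
      intro Q hQ t ht
      apply core' g hg z0 (fun i => t ^ b i) (fun i => zpow_ne_zero _ ht) _ z0 Q hQ
      intro q hq
      have h3 := hb q hq
      have h4 : ∏ i, (t ^ b i) ^ q i = t ^ (∑ i, q i * b i) := by
        induction (Finset.univ : Finset (Fin m)) using Finset.induction_on with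
        | empty => simp
        | insert a s ha ih =>
          rw [Finset.prod_insert ha, Finset.sum_insert ha, zpow_add₀ ht, ih, ← zpow_mul,
            mul_comm (b a)]
      rw [h4, h3, zpow_zero]
  · let V : ℂ → Fin (m + 1) → ℂ := fun t =>
      Fin.cons (z0 + (t - 1)) fun i => Complex.exp (g i z0)
    have hV1 : V 1 = vec g z0 := by
      simp [V, vec]
    refine ⟨fun t j => eval (V t) (P j), ?_, ?_, ?_, ?_⟩
    · intro j
      apply Laur.eval
      intro l
      refine Fin.cases ?_ (fun i => ?_) l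
      · have h3 := Laur.poly (Polynomial.C z0 + (Polynomial.X - 1) : Polynomial ℂ)
        simpa [V] using h3
      · simpa [V] using Laur.const (Complex.exp (g i z0))
    · intro j
      simp only
      rw [hV1]
    · apply hnc V (Fin.cons 1 fun i => 0)
      · intro l
        refine Fin.cases ?_ (fun i => ?_) l
        · have h3 := ((hasDerivAt_id (1 : ℂ)).sub_const 1).const_add z0
          simpa [V] using h3
        · simpa [V] using hasDerivAt_const (1 : ℂ) (Complex.exp (g i z0))
      · exact hV1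
      · rw [Fin.sum_univ_succ]
        simpa using hD0
    · apply hclos V
      intro Q hQ t ht
      have h3 := core' g hg z0 (fun _ => 1) (fun _ => one_ne_zero) (by simp) (z0 + (t - 1)) Q hQ
      simpa [V] using h3

end Pool.Agent.H159R3.Exp
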