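import Pool.Agent.H159R3.Exp.BLV
import Pool.Agent.H159R3.Lang.Powers

/-!
Rational points and entire curves of exponential type on arbitrary projective varieties.
-/

set_option autoImplicit false

namespace Pool.Agent.H159R3.Exp

open Filter MvPolynomial Pool.Agent.H159R3.NV
open scoped Topology LinearAlgebra.Projectivization

theorem ExpPoly.differentiable {n : ℕ} {r : ℂ → Fin n → ℂ} (hr : ExpPoly r) :
    Differentiable ℂ r := by
  obtain ⟨m, g, P, hg, hP⟩ := hr
  rw [differentiable_pi]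
  intro j z
  have hvd : ∀ l, HasDerivAt (fun z => vec g z l)
      ((Fin.cons 1 fun i => Complex.exp (g i z) * deriv (g i) z : Fin (m + 1) → ℂ) l) z := by
    intro l
    refine Fin.cases ?_ (fun i => ?_) l
    · simpa [vec] using hasDerivAt_id' z
    · simpa [vec] using ((hg i) z).hasDerivAt.cexp
  have h1 := (hasDerivAt_eval (vec g) _ z hvd (P j)).differentiableAt
  have h2 : (fun z => r z j) = fun z => eval (vec g z) (P j) := funext fun z => hP z j
  rw [h2]
  exact h1

/-- `X(L)`: the `L`-rational points of the closed subvariety `X` of `P^n` over `K` cut out by the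
forms `F i` -/
def points {K : Type} [Field K] {ι : Type} {n : ℕ} (F : ι → MvPolynomial (Fin (n + 1)) K)
    (L : Type) [Field L] [Algebra K L] : Set (ℙ L (Fin (n + 1) → L)) :=
  {P | ∀ i, aeval P.rep (F i) = 0}

/-- The holomorphic map from the complex plane to projective space with the homogeneous coordinates
`f j` (without common zeros) is of exponential type: after composition with some nonconstant entire
function `h` (for instance the identity) it has homogeneous coordinates (common zeros allowed) that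
are polynomials in `z` and in exponentials of entire functions. -/
def ExpTypeP {n : ℕ} (f : ℂ → Fin (n + 1) → ℂ) : Prop :=
  ∃ (h : ℂ → ℂ) (r : ℂ → Fin (n + 1) → ℂ), Differentiable ℂ h ∧ (∃ z w, h z ≠ h w) ∧ ExpPoly r ∧
    (∃ z, r z ≠ 0) ∧ ∀ z, ∃ c : ℂ, r z = c • f (h z)

/-- Every nonconstant holomorphic map of exponential type from the complex plane to `X_σ` has its
values in `Z_σ`. -/
def ExpCurvesInP {K : Type} [Field K] {ι ι' : Type} {n : ℕ} (σ : K →+* ℂ)
    (F : ι → MvPolynomial (Fin (n + 1)) K) (G : ι' → MvPolynomial (Fin (n + 1)) K) : Prop :=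
  ∀ f : ℂ → Fin (n + 1) → ℂ, Differentiable ℂ f → (∀ z, f z ≠ 0) →
    (∀ z i, eval₂ σ (f z) (F i) = 0) → ExpTypeP f → (∃ z w, ∀ c : ℂ, f z ≠ c • f w) →
    ∀ z i, eval₂ σ (f z) (G i) = 0

theorem inf_points {K : Type} [Field K] {ι ι' : Type} {n : ℕ}
    (F : ι → MvPolynomial (Fin (n + 1)) K) (hF : ∀ i, ∃ d, (F i).IsHomogeneous d)
    (G : ι' → MvPolynomial (Fin (n + 1)) K) (hG : ∀ i, ∃ d, (G i).IsHomogeneous d)
    {L : Type} [Field L] [Algebra K L] [CharZero L] (v : L → Fin (n + 1) → L)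
    (hv : ∀ j, Laur (fun t => v t j)) (hvF : ∀ i t, t ≠ 0 → aeval (v t) (F i) = 0) (i' : ι')
    (hvG : aeval (v 1) (G i') ≠ 0) (k1 : ℕ) (j k : Fin (n + 1))
    (hjk : v 1 j * v (2 ^ k1) k - v 1 k * v (2 ^ k1) j ≠ 0) :
    (points F L \ points G L).Infinite := by
  classical
  intro hfin
  obtain ⟨j0, hj0⟩ : ∃ j0, v 1 j0 ≠ 0 := by
    by_contra hcon
    push Not at hcon
    apply hjk
    rw [hcon j, hcon k]
    ring
  have hA : {m : ℕ | aeval (v (2 ^ m)) (G i') = 0}.Finite :=
    (Laur.eval₂ (algebraMap K L) v hv (G i')).finite_zeros ⟨1, one_ne_zero, hvG⟩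
  have hB : {m : ℕ | v (2 ^ m) j0 = 0}.Finite := (hv j0).finite_zeros ⟨1, one_ne_zero, hj0⟩
  have hfib : ∀ P : ℙ L (Fin (n + 1) → L),
      {m : ℕ | ∀ a b, v (2 ^ m) a * P.rep b - v (2 ^ m) b * P.rep a = 0}.Finite := by
    intro P
    obtain ⟨b, hb⟩ := Function.ne_iff.mp P.rep_nonzero
    have hb' : P.rep b ≠ 0 := hb
    obtain ⟨a, t, ht, hat⟩ : ∃ a t, t ≠ 0 ∧ v t a * P.rep b - v t b * P.rep a ≠ 0 := by
      by_contra hcon
      push Not at hcon
      apply hjk
      have h1 := hcon j 1 one_ne_zero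
      have h2 := hcon k 1 one_ne_zero
      have h3 := hcon j (2 ^ k1) (pow_ne_zero _ two_ne_zero)
      have h4 := hcon k (2 ^ k1) (pow_ne_zero _ two_ne_zero)
      have h5 : (v 1 j * v (2 ^ k1) k - v 1 k * v (2 ^ k1) j) * (P.rep b * P.rep b) = 0 := by
        linear_combination (v (2 ^ k1) k * P.rep b) * h1 - (v (2 ^ k1) j * P.rep b) * h2
          + (v 1 b * P.rep j) * h4 - (v 1 b * P.rep k) * h3
      exact (mul_eq_zero.mp h5).resolve_right (mul_ne_zero hb' hb')
    have h6 : Laur (fun t => v t a * P.rep b + -(P.rep a) * v t b) :=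
      ((hv a).mul (Laur.const _)).add ((Laur.const _).mul (hv b))
    refine (h6.finite_zeros ⟨t, ht, ?_⟩).subset ?_
    · intro h0
      apply hat
      linear_combination h0
    · intro m hm
      have := hm a b
      change v (2 ^ m) a * P.rep b + -(P.rep a) * v (2 ^ m) b = 0
      linear_combination this
  have hcov : ({m : ℕ | aeval (v (2 ^ m)) (G i') = 0} ∪ {m : ℕ | v (2 ^ m) j0 = 0})ᶜ ⊆
      ⋃ P ∈ points F L \ points G L,
        {m : ℕ | ∀ a b, v (2 ^ m) a * P.rep b - v (2 ^ m) b * P.rep a = 0} := by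
    intro m hm
    simp only [Set.mem_compl_iff, Set.mem_union, not_or] at hm
    obtain ⟨hmG, hm0⟩ := hm
    have hne : v (2 ^ m) ≠ 0 := by
      intro h0
      apply hm0
      change v (2 ^ m) j0 = 0
      rw [h0]
      rfl
    obtain ⟨a, ha⟩ := Projectivization.exists_smul_eq_mk_rep L _ hne
    have h1 : (Projectivization.mk L _ hne).rep = (a : L) • v (2 ^ m) := by
      rw [← ha]; rfl
    refine Set.mem_biUnion (x := Projectivization.mk L _ hne) ⟨?_, ?_⟩ ?_
    · intro i
      obtain ⟨d, hd⟩ := hF i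
      rw [h1, Lang.aeval_smul_homog hd, hvF i _ (pow_ne_zero _ two_ne_zero), mul_zero]
    · intro hcon
      obtain ⟨d, hd⟩ := hG i'
      have h2 := hcon i'
      rw [h1, Lang.aeval_smul_homog hd] at h2
      exact hmG ((mul_eq_zero.mp h2).resolve_left (pow_ne_zero _ a.ne_zero))
    · intro c d
      rw [h1]
      simp only [Pi.smul_apply, smul_eq_mul]
      ring
  exact (hA.union hB).infinite_compl ((hfin.biUnion fun P _ => hfib P).subset hcov)

/-- Rational points and entire curves of exponential type. -/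
theorem mainP {K : Type} [Field K] [NumberField K] {ι ι' : Type} {n : ℕ}
    (F : ι → MvPolynomial (Fin (n + 1)) K) (hF : ∀ i, ∃ d, (F i).IsHomogeneous d)
    (G : ι' → MvPolynomial (Fin (n + 1)) K) (hG : ∀ i, ∃ d, (G i).IsHomogeneous d)
    (hfin : ∀ (L : Type) [Field L] [Algebra K L], FiniteDimensional K L →
      (points F L \ points G L).Finite) (σ : K →+* ℂ) : ExpCurvesInP σ F G := by
  classical
  intro f hfd hf0 hfF hftype hnc zG i'
  by_contra hGz
  obtain ⟨h, r, hh, hhc, hr, ⟨zr, hzr⟩, hrf⟩ := hftype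
  have hfj : ∀ j, Differentiable ℂ (fun z => f z j) := fun j => by
    rw [differentiable_pi] at hfd
    exact hfd j
  have hrd := hr.differentiable
  have hrj : ∀ j, Differentiable ℂ (fun z => r z j) := fun j => by
    rw [differentiable_pi] at hrd
    exact hrd j
  have hrd' : ∀ j, Differentiable ℂ (deriv (fun z => r z j)) := fun j =>
    ((hrj j).contDiff (n := 2)).differentiable_deriv_two
  let _ := σ.toAlgebra
  have hsmul : ∀ (p : MvPolynomial (Fin (n + 1)) K) (d : ℕ) (_ : p.IsHomogeneous d) (c : ℂ)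
      (x : Fin (n + 1) → ℂ), eval₂ σ (c • x) p = c ^ d * eval₂ σ x p := fun p d hd c x =>
    Lang.aeval_smul_homog (K := K) hd c x
  have hrF : ∀ z i, eval₂ σ (r z) (F i) = 0 := by
    intro z i
    obtain ⟨c, hc⟩ := hrf z
    obtain ⟨d, hd⟩ := hF i
    rw [hc, hsmul _ d hd, hfF, mul_zero]
  obtain ⟨k, hk⟩ := Function.ne_iff.mp hzr
  have hk' : r zr k ≠ 0 := hk
  -- nonconstancy
  have hpair : ∃ j k, ∃ z,
      r z j * deriv (fun z => r z k) z - r z k * deriv (fun z => r z j) z ≠ 0 := by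
    by_contra hcon
    push Not at hcon
    have hc : ∀ j, ∃ c : ℂ, ∀ z, r z j = c * r z k := fun j =>
      Lang.proportional (hrj j) (hrj k) ⟨zr, hk'⟩ (fun z => hcon k j z)
    choose c hc using hc
    have hfc : ∀ j y, f y j - c j * f y k = 0 := by
      intro j
      by_contra hcon2
      push Not at hcon2
      have hAd : Differentiable ℂ (fun y => f y j - c j * f y k) :=
        (hfj j).sub ((hfj k).const_mul _)
      obtain ⟨z1, hz1⟩ := comp_ne hAd hcon2 hh hhc
      obtain ⟨z0, hz0, hz0'⟩ := ((ev_ne (hAd.comp hh) hz1 0).and (ev_ne (hrj k) hk' 0)).exists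
      obtain ⟨a, ha⟩ := hrf z0
      have h1 : r z0 j = a * f (h z0) j := congrFun ha j
      have h2 : r z0 k = a * f (h z0) k := congrFun ha k
      have ha0 : a ≠ 0 := by
        rintro rfl
        apply hz0'
        rw [h2, zero_mul]
      apply hz0
      change f (h z0) j - c j * f (h z0) k = 0
      apply mul_left_cancel₀ ha0
      have h3 := hc j z0
      rw [h1, h2] at h3
      linear_combination h3
    have hfk : ∀ z, f z k ≠ 0 := by
      intro z h0
      apply hf0 z
      funext j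
      have := hfc j z
      rw [h0, mul_zero, sub_zero] at this
      exact this
    obtain ⟨w1, w2, hw⟩ := hnc
    apply hw (f w1 k / f w2 k)
    funext j
    rw [Pi.smul_apply, smul_eq_mul, sub_eq_zero.mp (hfc j w1), sub_eq_zero.mp (hfc j w2)]
    have := hfk w2
    field_simp
  obtain ⟨j1, k1, zw, hzw⟩ := hpair
  have hwd : Differentiable ℂ (fun z => r z j1 * deriv (fun z => r z k1) z
      - r z k1 * deriv (fun z => r z j1) z) :=
    ((hrj j1).mul (hrd' k1)).sub ((hrj k1).mul (hrd' j1))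
  -- the form `G i'`
  have hGd : Differentiable ℂ (fun z => eval₂ σ (f z) (G i')) := by
    have : (fun z => eval₂ σ (f z) (G i')) = fun z => eval (f z) (map σ (G i')) :=
      funext fun z => eval₂_eq_eval_map _ _ _
    rw [this]
    exact differentiable_eval hfd _
  obtain ⟨z2, hz2⟩ := comp_ne hGd ⟨zG, hGz⟩ hh hhc
  obtain ⟨z0, hz0w, hz0G, hz0r⟩ := ((ev_ne hwd hzw 0).and
    ((ev_ne (hGd.comp hh) hz2 0).and (ev_ne (hrj k) hk' 0))).exists
  have hGr : eval₂ σ (r z0) (G i') ≠ 0 := by
    obtain ⟨a, ha⟩ := hrf z0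
    obtain ⟨d, hd⟩ := hG i'
    rw [ha, hsmul _ d hd]
    apply mul_ne_zero _ hz0G
    apply pow_ne_zero
    rintro rfl
    apply hz0r
    rw [ha]
    simp
  -- the rational curve
  obtain ⟨v, hv, hv1, ⟨m, hm⟩, hvF⟩ := rational_curve r hr
    (fun l => r z0 j1 * (Pi.single k1 1 : Fin (n + 1) → ℂ) l
      - r z0 k1 * (Pi.single j1 1 : Fin (n + 1) → ℂ) l) z0 (by
    have h1 : (fun z => ∑ l, (r z0 j1 * (Pi.single k1 1 : Fin (n + 1) → ℂ) l
        - r z0 k1 * (Pi.single j1 1 : Fin (n + 1) → ℂ) l) * r z l)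
        = fun z => r z0 j1 * r z k1 - r z0 k1 * r z j1 := by
      funext z
      simp [sub_mul, Finset.sum_sub_distrib, Pi.single_apply]
    rw [h1]
    have h2 : HasDerivAt (fun z => r z0 j1 * r z k1 - r z0 k1 * r z j1)
        (r z0 j1 * deriv (fun z => r z k1) z0 - r z0 k1 * deriv (fun z => r z j1) z0) z0 :=
      (((hrj k1) z0).hasDerivAt.const_mul _).sub (((hrj j1) z0).hasDerivAt.const_mul _)
    rw [h2.deriv]
    exact hz0w)
  have hsum : ∀ t, ∑ l, (r z0 j1 * (Pi.single k1 1 : Fin (n + 1) → ℂ) l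
      - r z0 k1 * (Pi.single j1 1 : Fin (n + 1) → ℂ) l) * v t l
      = r z0 j1 * v t k1 - r z0 k1 * v t j1 := by
    intro t
    simp [sub_mul, Finset.sum_sub_distrib, Pi.single_apply]
  rw [hsum, hsum, ← hv1] at hm
  have hm' : v 1 j1 * v (2 ^ m) k1 - v 1 k1 * v (2 ^ m) j1 ≠ 0 := by
    intro h0
    apply hm
    rw [h0]
    ring
  obtain ⟨L, _, _, hNF, hfd', v', hv', hv'F, hv'W⟩ := descend F
    (rename Sum.inl (G i') * (X (Sum.inl j1) * X (Sum.inr k1) - X (Sum.inl k1) * X (Sum.inr j1)))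
    v hv
    (fun i t ht => by
      change eval₂ σ (v t) (F i) = 0
      rw [eval₂_eq_eval_map]
      apply hvF _ _ t ht
      intro z
      rw [← eval₂_eq_eval_map]
      exact hrF z i) m (by
    rw [map_mul, aeval_rename]
    simp only [map_sub, map_mul, aeval_X, Sum.elim_comp_inl, Sum.elim_inr, Sum.elim_inl]
    refine mul_ne_zero ?_ hm'
    rw [hv1]
    exact hGr)
  rw [map_mul, aeval_rename] at hv'W
  simp only [map_sub, map_mul, aeval_X, Sum.elim_comp_inl, Sum.elim_inr, Sum.elim_inl] at hv'W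
  exact inf_points F hF G hG v' hv' hv'F i' (left_ne_zero_of_mul hv'W) m j1 k1
    (right_ne_zero_of_mul hv'W) (hfin L hfd')

end Pool.Agent.H159R3.Exp
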