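import Pool.Agent.H159R3.Exp.Laur

/-!
Normal form of rational curves in projective space.
-/

set_option autoImplicit false

namespace Pool.Agent.H159R3.Exp

open MvPolynomial Filter
open scoped Topology

theorem divide {σ : Type} [Finite σ] (j0 : σ) : ∀ (d : ℕ) (Q : σ → Polynomial ℂ), Q j0 ≠ 0 →
    (Q j0).natDegree = d → ∃ (g : Polynomial ℂ) (R : σ → Polynomial ℂ),
      (∀ j, Q j = g * R j) ∧ ∀ t, ∃ j, (R j).eval t ≠ 0 := by
  intro d
  induction d with
  | zero =>
    intro Q h0 hd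
    refine ⟨1, Q, fun j => (one_mul _).symm, fun t => ⟨j0, ?_⟩⟩
    obtain ⟨c, hc⟩ := Polynomial.natDegree_eq_zero.mp hd
    rw [← hc, Polynomial.eval_C]
    rintro rfl
    apply h0
    rw [← hc, Polynomial.C_0]
  | succ d ih =>
    intro Q h0 hd
    by_cases hz : ∀ t, ∃ j, (Q j).eval t ≠ 0
    · exact ⟨1, Q, fun j => (one_mul _).symm, hz⟩
    · push Not at hz
      obtain ⟨a, ha⟩ := hz
      have h1 : ∀ j, ∃ R, Q j = (Polynomial.X - Polynomial.C a) * R := fun j =>
        Polynomial.dvd_iff_isRoot.mpr (ha j)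
      choose R hR using h1
      have hR0 : R j0 ≠ 0 := by
        intro h
        apply h0
        rw [hR j0, h, mul_zero]
      have hd' : (R j0).natDegree = d := by
        have h2 := hR j0
        rw [h2, Polynomial.natDegree_mul (Polynomial.X_sub_C_ne_zero a) hR0,
          Polynomial.natDegree_X_sub_C] at hd
        omega
      obtain ⟨g, S, hS, hS2⟩ := ih R hR0 hd'
      refine ⟨(Polynomial.X - Polynomial.C a) * g, S, fun j => ?_, hS2⟩
      rw [hR j, hS j, mul_assoc]

/-- homogenisation -/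
noncomputable def hom (D : ℕ) (Q : Polynomial ℂ) (s t : ℂ) : ℂ :=
  ∑ l ∈ Finset.range (D + 1), Q.coeff l * s ^ (D - l) * t ^ l

theorem hom_of_ne (D : ℕ) (Q : Polynomial ℂ) (hQ : Q.natDegree ≤ D) (s t : ℂ) (hs : s ≠ 0) :
    hom D Q s t = s ^ D * Q.eval (t / s) := by
  unfold hom
  rw [Polynomial.eval_eq_sum_range' (Nat.lt_succ_of_le hQ), Finset.mul_sum]
  refine Finset.sum_congr rfl fun l hl => ?_
  have hl' : l ≤ D := Nat.lt_succ_iff.mp (Finset.mem_range.mp hl)
  rw [div_pow]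
  have : s ^ D = s ^ (D - l) * s ^ l := by rw [← pow_add, Nat.sub_add_cancel hl']
  rw [this]
  have := pow_ne_zero l hs
  field_simp

theorem hom_zero (D : ℕ) (Q : Polynomial ℂ) (t : ℂ) : hom D Q 0 t = Q.coeff D * t ^ D := by
  unfold hom
  rw [Finset.sum_eq_single D]
  · simp
  · intro l hl hlD
    have hl' : l < D := lt_of_le_of_ne (Nat.lt_succ_iff.mp (Finset.mem_range.mp hl)) hlD
    rw [zero_pow (Nat.sub_ne_zero_of_lt hl')]
    ring
  · intro h
    exact absurd (Finset.self_mem_range_succ D) h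

theorem hom_smul (D : ℕ) (Q : Polynomial ℂ) (e s t : ℂ) :
    hom D Q (e * s) (e * t) = e ^ D * hom D Q s t := by
  unfold hom
  rw [Finset.mul_sum]
  refine Finset.sum_congr rfl fun l hl => ?_
  have hl' : l ≤ D := Nat.lt_succ_iff.mp (Finset.mem_range.mp hl)
  have : e ^ D = e ^ (D - l) * e ^ l := by rw [← pow_add, Nat.sub_add_cancel hl']
  rw [this, mul_pow, mul_pow]
  ring

/-- A morphism from the projective line to projective space through `v 1`. -/
theorem reduce {n : ℕ} (v : ℂ → Fin (n + 1) → ℂ) (hv : ∀ j, Laur (fun t => v t j))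
    (h1 : v 1 ≠ 0) :
    ∃ (D : ℕ) (Q : Fin (n + 1) → Polynomial ℂ) (c : ℂ → ℂ), (∀ j, (Q j).natDegree ≤ D) ∧
      (∃ j, (Q j).coeff D ≠ 0) ∧ (∀ t, ∃ j, (Q j).eval t ≠ 0) ∧
      (∀ t, t ≠ 0 → ∀ j, v t j = c t * (Q j).eval t) ∧ {t | c t = 0}.Finite := by
  classical
  obtain ⟨M, Q0, hQ0⟩ := Laur.common v hv
  obtain ⟨j0, hj0⟩ := Function.ne_iff.mp h1
  have hQj0 : Q0 j0 ≠ 0 := by
    intro h
    apply hj0
    rw [hQ0 1 one_ne_zero j0, h]
    simp
  obtain ⟨g, Q, hQ, hQ2⟩ := divide j0 _ Q0 hQj0 rfl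
  have hg : g ≠ 0 := by
    rintro rfl
    apply hQj0
    rw [hQ j0, zero_mul]
  let D := Finset.univ.sup (fun j => (Q j).natDegree)
  have hD : ∀ j, (Q j).natDegree ≤ D := fun j =>
    Finset.le_sup (f := fun j => (Q j).natDegree) (Finset.mem_univ j)
  refine ⟨D, Q, fun t => if t = 0 then 1 else g.eval t / t ^ M, hD, ?_, hQ2, ?_, ?_⟩
  · obtain ⟨j1, -, hj1⟩ := Finset.exists_mem_eq_sup Finset.univ ⟨j0, Finset.mem_univ j0⟩
      (fun j => (Q j).natDegree)
    by_cases h : D = 0
    · obtain ⟨j2, hj2⟩ := hQ2 0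
      refine ⟨j2, ?_⟩
      rw [h]
      have := hD j2
      rw [h, Nat.le_zero] at this
      rwa [Polynomial.coeff_zero_eq_eval_zero]
    · refine ⟨j1, ?_⟩
      change (Q j1).coeff (Finset.univ.sup (fun j => (Q j).natDegree)) ≠ 0
      rw [hj1]
      change (Q j1).leadingCoeff ≠ 0
      intro h2
      apply h
      have h3 := Polynomial.leadingCoeff_eq_zero.mp h2
      change Finset.univ.sup (fun j => (Q j).natDegree) = 0
      rw [hj1, h3, Polynomial.natDegree_zero]
  · intro t ht j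
    simp only [if_neg ht]
    rw [hQ0 t ht j, hQ j, Polynomial.eval_mul]
    ring
  · refine (Polynomial.finite_setOf_isRoot hg).subset ?_
    intro t ht
    by_cases h0 : t = 0
    · simp [h0] at ht
    · simp only [h0, if_false, Set.mem_setOf_eq] at ht
      exact (div_eq_zero_iff.mp ht).resolve_right (pow_ne_zero _ h0)

theorem eval_smul_homog {σ : Type} [Fintype σ] {F : MvPolynomial σ ℂ} {d : ℕ}
    (hF : F.IsHomogeneous d) (c : ℂ) (x : σ → ℂ) :
    eval (fun j => c * x j) F = c ^ d * eval x F := by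
  classical
  rw [eval_eq', eval_eq', Finset.mul_sum]
  refine Finset.sum_congr rfl fun α hα => ?_
  have hdeg : ∑ j, α j = d := by
    have := hF (mem_support_iff.mp hα)
    rw [Finsupp.weight_apply] at this
    simpa [Finsupp.sum_fintype] using this
  have : ∏ j, (c * x j) ^ α j = c ^ d * ∏ j, x j ^ α j := by
    simp only [mul_pow]
    rw [Finset.prod_mul_distrib, Finset.prod_pow_eq_pow_sum, hdeg]
  rw [this]
  ring

/-- The morphism from the projective line has its image in `X`. -/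
theorem reduce_mem {n : ℕ} (v : ℂ → Fin (n + 1) → ℂ) (D : ℕ) (Q : Fin (n + 1) → Polynomial ℂ)
    (c : ℂ → ℂ) (hD : ∀ j, (Q j).natDegree ≤ D)
    (hc : ∀ t, t ≠ 0 → ∀ j, v t j = c t * (Q j).eval t) (hfin : {t | c t = 0}.Finite)
    (F : MvPolynomial (Fin (n + 1)) ℂ) {d : ℕ} (hF : F.IsHomogeneous d)
    (hv : ∀ t, t ≠ 0 → eval (v t) F = 0) (s t : ℂ) : eval (fun j => hom D (Q j) s t) F = 0 := by
  -- the polynomial `F (Q)` vanishes
  let P : Polynomial ℂ := aeval Q F
  have hPe : ∀ t, P.eval t = eval (fun j => (Q j).eval t) F := by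
    intro t
    have h1 : P.eval t = (Polynomial.aeval t : Polynomial ℂ →ₐ[ℂ] ℂ) P := by
      rw [Polynomial.coe_aeval_eq_eval]
    rw [h1]
    simp only [P]
    rw [comp_aeval_apply, ← aeval_eq_eval]
    congr 2
  have hP0 : P = 0 := by
    apply Polynomial.eq_zero_of_infinite_isRoot
    have h1 : ({t | c t = 0} ∪ {0})ᶜ ⊆ {x | P.IsRoot x} := by
      intro t ht
      simp only [Set.mem_compl_iff, Set.mem_union, Set.mem_setOf_eq, Set.mem_singleton_iff,
        not_or] at ht
      change P.eval t = 0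
      rw [hPe]
      have h2 := hv t ht.2
      rw [show v t = fun j => c t * (Q j).eval t from funext fun j => hc t ht.2 j,
        eval_smul_homog hF] at h2
      exact (mul_eq_zero.mp h2).resolve_left (pow_ne_zero _ ht.1)
    exact ((hfin.union (Set.finite_singleton 0)).infinite_compl).mono h1
  have h3 : ∀ s t, s ≠ 0 → eval (fun j => hom D (Q j) s t) F = 0 := by
    intro s t hs
    rw [show (fun j => hom D (Q j) s t) = fun j => s ^ D * (Q j).eval (t / s) from
      funext fun j => hom_of_ne D (Q j) (hD j) s t hs, eval_smul_homog hF, ← hPe, hP0]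
    simp
  by_cases hs : s = 0
  · have hcont : Continuous (fun s => eval (fun j => hom D (Q j) s t) F) := by
      have : (fun s => eval (fun j => hom D (Q j) s t) F)
          = fun s => ∑ α ∈ F.support, F.coeff α * ∏ j, hom D (Q j) s t ^ α j := by
        funext s
        rw [eval_eq']
      rw [this]
      unfold hom
      fun_prop
    have h4 : Tendsto (fun s => eval (fun j => hom D (Q j) s t) F) (𝓝[≠] 0)
        (𝓝 (eval (fun j => hom D (Q j) 0 t) F)) :=
      (hcont.tendsto 0).mono_left nhdsWithin_le_nhds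
    have h5 : Tendsto (fun s => eval (fun j => hom D (Q j) s t) F) (𝓝[≠] 0) (𝓝 0) := by
      apply tendsto_const_nhds.congr'
      filter_upwards [self_mem_nhdsWithin] with s hs
      exact (h3 s t hs).symm
    rw [hs]
    exact tendsto_nhds_unique h4 h5
  · exact h3 s t hs

theorem hom_ne {n : ℕ} (D : ℕ) (Q : Fin (n + 1) → Polynomial ℂ) (hD : ∀ j, (Q j).natDegree ≤ D)
    (hDj : ∃ j, (Q j).coeff D ≠ 0) (hQ : ∀ t, ∃ j, (Q j).eval t ≠ 0) (s t : ℂ)
    (hst : s ≠ 0 ∨ t ≠ 0) : (fun j => hom D (Q j) s t) ≠ 0 := by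
  by_cases hs : s = 0
  · obtain ⟨j, hj⟩ := hDj
    have ht := hst.resolve_left (fun h => h hs)
    refine Function.ne_iff.mpr ⟨j, ?_⟩
    rw [hs, hom_zero]
    exact mul_ne_zero hj (pow_ne_zero _ ht)
  · obtain ⟨j, hj⟩ := hQ (t / s)
    refine Function.ne_iff.mpr ⟨j, ?_⟩
    rw [hom_of_ne D (Q j) (hD j) s t hs]
    exact mul_ne_zero (pow_ne_zero _ hs) hj

end Pool.Agent.H159R3.Exp
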