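import Pool.Agent.H159R3.Exp.Lang
import Pool.Agent.H159R3.Exp.Rational

/-!
Rational curves from entire curves of exponential type in projective space.
-/

set_option autoImplicit false

namespace Pool.Agent.H159R3.Exp

open Filter MvPolynomial Pool.Agent.H159R3.NV
open scoped Topology

/-- Rational curves through points of an entire curve of exponential type. -/
theorem rational_of_entire {n : ℕ} (f : ℂ → Fin (n + 1) → ℂ) (hfd : Differentiable ℂ f)
    (hf0 : ∀ z, f z ≠ 0) (hftype : ExpTypeP f) (hnc : ∃ z w, ∀ c : ℂ, f z ≠ c • f w)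
    (G : MvPolynomial (Fin (n + 1)) ℂ) {e : ℕ} (hG : G.IsHomogeneous e) (zG : ℂ)
    (hGz : eval (f zG) G ≠ 0) :
    ∃ v : ℂ → Fin (n + 1) → ℂ, (∀ j, Laur (fun t => v t j)) ∧ eval (v 1) G ≠ 0 ∧
      (∃ (m : ℕ) (j k : Fin (n + 1)), v 1 j * v (2 ^ m) k - v 1 k * v (2 ^ m) j ≠ 0) ∧
      ∀ (F : MvPolynomial (Fin (n + 1)) ℂ) (d : ℕ), F.IsHomogeneous d →
        (∀ z, eval (f z) F = 0) → ∀ t, t ≠ 0 → eval (v t) F = 0 := by
  classical
  obtain ⟨h, r, hh, hhc, hr, ⟨zr, hzr⟩, hrf⟩ := hftype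
  have hfj : ∀ j, Differentiable ℂ (fun z => f z j) := fun j => by
    rw [differentiable_pi] at hfd
    exact hfd j
  have hrd := hr.differentiable
  have hrj : ∀ j, Differentiable ℂ (fun z => r z j) := fun j => by
    rw [differentiable_pi] at hrd
    exact hrd j
  have hrd' : ∀ j, Differentiable ℂ (deriv (fun z => r z j)) := fun j =>
    ((hrj j).contDiff (n := 2)).differentiable_deriv_two
  have hrF : ∀ (F : MvPolynomial (Fin (n + 1)) ℂ) (d : ℕ), F.IsHomogeneous d →
      (∀ z, eval (f z) F = 0) → ∀ z, eval (r z) F = 0 := by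
    intro F d hd hF z
    obtain ⟨c, hc⟩ := hrf z
    have := eval_smul_homog hd c (f (h z))
    rw [hc]
    change eval (fun j => c * f (h z) j) F = 0
    rw [this, hF, mul_zero]
  obtain ⟨k, hk⟩ := Function.ne_iff.mp hzr
  have hk' : r zr k ≠ 0 := hk
  -- nonconstancy
  have hpair : ∃ j k, ∃ z,
      r z j * deriv (fun z => r z k) z - r z k * deriv (fun z => r z j) z ≠ 0 := by
    by_contra hcon
    push Not at hcon
    have hc : ∀ j, ∃ c : ℂ, ∀ z, r z j = c * r z k := fun j =>
      Lang.proportional (hrj j) (hrj k) ⟨zr, hk'⟩ (fun z => hcon k j z)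
    choose c hc using hc
    have hfc : ∀ j y, f y j - c j * f y k = 0 := by
      intro j
      by_contra hcon2
      push Not at hcon2
      have hAd : Differentiable ℂ (fun y => f y j - c j * f y k) :=
        (hfj j).sub ((hfj k).const_mul _)
      obtain ⟨z1, hz1⟩ := comp_ne hAd hcon2 hh hhc
      obtain ⟨z0, hz0, hz0'⟩ := ((ev_ne (hAd.comp hh) hz1 0).and (ev_ne (hrj k) hk' 0)).exists
      obtain ⟨a, ha⟩ := hrf z0
      have h1 : r z0 j = a * f (h z0) j := congrFun ha j
      have h2 : r z0 k = a * f (h z0) k := congrFun ha k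
      have ha0 : a ≠ 0 := by
        rintro rfl
        apply hz0'
        rw [h2, zero_mul]
      apply hz0
      change f (h z0) j - c j * f (h z0) k = 0
      apply mul_left_cancel₀ ha0
      have h3 := hc j z0
      rw [h1, h2] at h3
      linear_combination h3
    have hfk : ∀ z, f z k ≠ 0 := by
      intro z h0
      apply hf0 z
      funext j
      have := hfc j z
      rw [h0, mul_zero, sub_zero] at this
      exact this
    obtain ⟨w1, w2, hw⟩ := hnc
    apply hw (f w1 k / f w2 k)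
    funext j
    rw [Pi.smul_apply, smul_eq_mul, sub_eq_zero.mp (hfc j w1), sub_eq_zero.mp (hfc j w2)]
    have := hfk w2
    field_simp
  obtain ⟨j1, k1, zw, hzw⟩ := hpair
  have hwd : Differentiable ℂ (fun z => r z j1 * deriv (fun z => r z k1) z
      - r z k1 * deriv (fun z => r z j1) z) :=
    ((hrj j1).mul (hrd' k1)).sub ((hrj k1).mul (hrd' j1))
  have hGd : Differentiable ℂ (fun z => eval (f z) G) := differentiable_eval hfd _
  obtain ⟨z2, hz2⟩ := comp_ne hGd ⟨zG, hGz⟩ hh hhc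
  obtain ⟨z0, hz0w, hz0G, hz0r⟩ := ((ev_ne hwd hzw 0).and
    ((ev_ne (hGd.comp hh) hz2 0).and (ev_ne (hrj k) hk' 0))).exists
  have hGr : eval (r z0) G ≠ 0 := by
    obtain ⟨a, ha⟩ := hrf z0
    have := eval_smul_homog hG a (f (h z0))
    rw [ha]
    change eval (fun j => a * f (h z0) j) G ≠ 0
    rw [this]
    apply mul_ne_zero _ hz0G
    apply pow_ne_zero
    rintro rfl
    apply hz0r
    rw [ha]
    simp
  -- the rational curve
  obtain ⟨v, hv, hv1, ⟨m, hm⟩, hvF⟩ := rational_curve r hr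
    (fun l => r z0 j1 * (Pi.single k1 1 : Fin (n + 1) → ℂ) l
      - r z0 k1 * (Pi.single j1 1 : Fin (n + 1) → ℂ) l) z0 (by
    have h1 : (fun z => ∑ l, (r z0 j1 * (Pi.single k1 1 : Fin (n + 1) → ℂ) l
        - r z0 k1 * (Pi.single j1 1 : Fin (n + 1) → ℂ) l) * r z l)
        = fun z => r z0 j1 * r z k1 - r z0 k1 * r z j1 := by
      funext z
      simp [sub_mul, Finset.sum_sub_distrib, Pi.single_apply]
    rw [h1]
    have h2 : HasDerivAt (fun z => r z0 j1 * r z k1 - r z0 k1 * r z j1)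
        (r z0 j1 * deriv (fun z => r z k1) z0 - r z0 k1 * deriv (fun z => r z j1) z0) z0 :=
      (((hrj k1) z0).hasDerivAt.const_mul _).sub (((hrj j1) z0).hasDerivAt.const_mul _)
    rw [h2.deriv]
    exact hz0w)
  have hsum : ∀ t, ∑ l, (r z0 j1 * (Pi.single k1 1 : Fin (n + 1) → ℂ) l
      - r z0 k1 * (Pi.single j1 1 : Fin (n + 1) → ℂ) l) * v t l
      = r z0 j1 * v t k1 - r z0 k1 * v t j1 := by
    intro t
    simp [sub_mul, Finset.sum_sub_distrib, Pi.single_apply]
  rw [hsum, hsum, ← hv1] at hm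
  refine ⟨v, hv, by rw [hv1]; exact hGr, ⟨m, j1, k1, ?_⟩, ?_⟩
  · intro h0
    apply hm
    rw [h0]
    ring
  · intro F d hd hF t ht
    exact hvF F (hrF F d hd hF) t ht

end Pool.Agent.H159R3.Exp
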