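import Pool.Agent.H159R3.Exp.BLV
import Pool.Agent.H159R3.GGL.Special

/-!
The Zariski closure of the union of the entire curves of exponential type in an affine variety.
-/

set_option autoImplicit false

namespace Pool.Agent.H159R3.ExpAff

open Filter MvPolynomial Pool.Agent.H159R3.NV Pool.Agent.H159R3.Exp
open scoped Topology

variable {n : ℕ} {ι : Type}

/-- The points of the affine variety `X` in affine `n`-space over the complex numbers with the
equations `F i`. -/
def Pts (F : ι → MvPolynomial (Fin n) ℂ) : Set (Fin n → ℂ) := {x | ∀ i, eval x (F i) = 0}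

/-- The Zariski closure in `X`. -/
def zcl (F : ι → MvPolynomial (Fin n) ℂ) (A : Set (Fin n → ℂ)) : Set (Fin n → ℂ) :=
  {x | x ∈ Pts F ∧ ∀ G : MvPolynomial (Fin n) ℂ, (∀ a ∈ A, eval a G = 0) → eval x G = 0}

/-- The union of the images of all nonconstant entire curves of exponential type in `X`. -/
def expPoints (F : ι → MvPolynomial (Fin n) ℂ) : Set (Fin n → ℂ) :=
  {x | ∃ (f : ℂ → Fin n → ℂ) (z : ℂ), ExpType f ∧ (∀ z, f z ∈ Pts F) ∧ (∃ z w, f z ≠ f w) ∧
    f z = x}

/-- The union of the images of all nonconstant morphisms from the multiplicative group to `X`. -/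
def gmPoints (F : ι → MvPolynomial (Fin n) ℂ) : Set (Fin n → ℂ) :=
  {x | ∃ (v : ℂ → Fin n → ℂ) (t : ℂ), (∀ j, Laur (fun t => v t j)) ∧
    (∀ t, t ≠ 0 → v t ∈ Pts F) ∧ (∃ s t, s ≠ 0 ∧ t ≠ 0 ∧ v s ≠ v t) ∧ t ≠ 0 ∧ v t = x}

theorem exp_of_laur {v : ℂ → Fin n → ℂ} (hv : ∀ j, Laur (fun t => v t j)) :
    ExpType (fun z => v (Complex.exp z)) := by
  refine ⟨?_, fun z => z, differentiable_id, ⟨0, 1, zero_ne_one⟩, ?_⟩
  · rw [differentiable_pi]
    exact fun j => GGL.laur_exp (hv j)
  · choose M Q hMQ using hv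
    refine ⟨2, fun i z => if i = 0 then z else -z,
      fun j => Polynomial.aeval (X 1) (Q j) * X 2 ^ M j, ?_, ?_⟩
    · intro i
      by_cases hi : i = 0
      · simp only [hi, if_true]
        exact differentiable_id
      · simp only [hi, if_false]
        exact differentiable_id.neg
    · intro z j
      have h1 : ∀ y : Fin 3 → ℂ, eval y (Polynomial.aeval (X 1 : MvPolynomial (Fin 3) ℂ) (Q j))
          = (Q j).eval (y 1) := by
        intro y
        have h2 := Polynomial.map_aeval_eq_aeval_map (S := MvPolynomial (Fin 3) ℂ) (U := ℂ)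
          (φ := RingHom.id ℂ) (ψ := eval y) (by ext a; simp) (Q j) (X 1)
        rw [h2]
        simp
      rw [map_mul, map_pow, h1, eval_X]
      have h3 : (Fin.cons z (fun i : Fin 2 => Complex.exp (if i = 0 then z else -z)) :
          Fin 3 → ℂ) 1 = Complex.exp z := rfl
      have h4 : (Fin.cons z (fun i : Fin 2 => Complex.exp (if i = 0 then z else -z)) :
          Fin 3 → ℂ) 2 = Complex.exp (-z) := rfl
      rw [h3, h4, ← hMQ j _ (Complex.exp_ne_zero z), mul_assoc, ← mul_pow, ← Complex.exp_add,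
        add_neg_cancel, Complex.exp_zero, one_pow, mul_one]

theorem gm_of_exp (F : ι → MvPolynomial (Fin n) ℂ) (f0 : ℂ → Fin n → ℂ) (hf0 : ExpType f0)
    (hfF0 : ∀ z, f0 z ∈ Pts F) (hnc0 : ∃ z w, f0 z ≠ f0 w) (G : MvPolynomial (Fin n) ℂ) (zG : ℂ)
    (hG : eval (f0 zG) G ≠ 0) : ∃ x ∈ gmPoints F, eval x G ≠ 0 := by
  obtain ⟨hf0d, h, hh, hhc, hf⟩ := hf0
  set f : ℂ → Fin n → ℂ := fun z => f0 (h z) with hfdef
  have hfd : Differentiable ℂ f := hf0d.comp hh
  have hfF : ∀ z i, eval (f z) (F i) = 0 := fun z i => hfF0 (h z) i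
  obtain ⟨z2, hz2⟩ : ∃ z, eval (f z) G ≠ 0 :=
    comp_ne (F := fun z => eval (f0 z) G) (differentiable_eval hf0d _) ⟨zG, hG⟩ hh hhc
  have hfj : ∀ j, Differentiable ℂ (fun z => f z j) := fun j => by
    rw [differentiable_pi] at hfd
    exact hfd j
  obtain ⟨j1, hj1⟩ : ∃ j, ∃ z, deriv (fun z => f z j) z ≠ 0 := by
    obtain ⟨z, w, hzw⟩ := hnc0
    obtain ⟨j, hj⟩ := Function.ne_iff.mp hzw
    have h1 : Differentiable ℂ (fun z => f0 z j) := by
      rw [differentiable_pi] at hf0d
      exact hf0d j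
    obtain ⟨a, ha⟩ := comp_ne (F := fun y => f0 y j - f0 (h 0) j) (h1.sub_const _) (by
      by_contra hcon
      push Not at hcon
      exact hj ((sub_eq_zero.mp (hcon z)).trans (sub_eq_zero.mp (hcon w)).symm)) hh hhc
    refine ⟨j, ?_⟩
    by_contra hcon
    push Not at hcon
    apply ha
    rw [sub_eq_zero]
    exact is_const_of_deriv_eq_zero (hfj j) hcon a 0
  obtain ⟨zd, hzd⟩ := hj1
  have hdj : Differentiable ℂ (deriv (fun z => f z j1)) :=
    ((hfj j1).contDiff (n := 2)).differentiable_deriv_two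
  obtain ⟨z0, hz0, hz0G⟩ := ((ev_ne hdj hzd 0).and (ev_ne (differentiable_eval hfd G) hz2 0)).exists
  obtain ⟨v, hv, hv1, ⟨k1, hk1⟩, hvF⟩ := rational_curve f hf (Pi.single j1 1) z0 (by
    have : (fun z => ∑ j, (Pi.single j1 1 : Fin n → ℂ) j * f z j) = fun z => f z j1 := by
      funext z
      rw [Finset.sum_eq_single j1]
      · simp
      · intro j _ hj
        simp [hj]
      · simp
    rw [this]
    exact hz0)
  refine ⟨v 1, ⟨v, 1, hv, fun t ht i => hvF _ (fun z => hfF z i) t ht,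
    ⟨2 ^ k1, 1, pow_ne_zero _ two_ne_zero, one_ne_zero, fun h0 => hk1 (by rw [h0])⟩,
    one_ne_zero, rfl⟩, ?_⟩
  rw [hv1]
  exact hz0G

/-- The entire curves of exponential type and the images of the multiplicative group have the same
Zariski closure. -/
theorem main (F : ι → MvPolynomial (Fin n) ℂ) : zcl F (expPoints F) = zcl F (gmPoints F) := by
  ext x
  constructor
  · rintro ⟨hx, h⟩
    refine ⟨hx, fun G hG => h G ?_⟩
    rintro _ ⟨f, z, hf, hfF, hnc, rfl⟩
    by_contra hz
    obtain ⟨y, hy, hyG⟩ := gm_of_exp F f hf hfF hnc G z hz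
    exact hyG (hG y hy)
  · rintro ⟨hx, h⟩
    refine ⟨hx, fun G hG => h G ?_⟩
    rintro _ ⟨v, t, hv, hvF, ⟨s1, t1, hs1, ht1, hst⟩, ht, rfl⟩
    apply hG
    refine ⟨fun z => v (Complex.exp z), Complex.log t, exp_of_laur hv,
      fun z => hvF _ (Complex.exp_ne_zero z), ⟨Complex.log s1, Complex.log t1, ?_⟩, ?_⟩
    · simp only [Complex.exp_log hs1, Complex.exp_log ht1]
      exact hst
    · simp only [Complex.exp_log ht]

end Pool.Agent.H159R3.ExpAff
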