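import Pool.Agent.H159R3.Exp.Proj
import Pool.Agent.H159R3.GGL.Special

/-!
The Zariski closure of the union of the entire curves of exponential type.
-/

set_option autoImplicit false

namespace Pool.Agent.H159R3.Exp

open MvPolynomial Pool.Agent.H159R3.GGL

variable {n : ℕ} {ι : Type}

/-- `Q` is the vector of homogeneous coordinates, polynomials without common zeros, of a nonconstant
morphism from the affine line to `X`. -/
def RationalCurve (F : ι → MvPolynomial (Fin (n + 1)) ℂ) (Q : Fin (n + 1) → Polynomial ℂ) : Prop :=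
  (∀ t, (fun j => (Q j).eval t) ∈ Pts F) ∧
    ∃ s t, ∀ c : ℂ, (fun j => (Q j).eval s) ≠ c • fun j => (Q j).eval t

/-- The Zariski closure in `X` of the union of the images of all nonconstant morphisms from the
affine line to `X`. -/
def SpRat (F : ι → MvPolynomial (Fin (n + 1)) ℂ) : Set (Fin (n + 1) → ℂ) :=
  {x | x ∈ Pts F ∧ ∀ G : MvPolynomial (Fin (n + 1)) ℂ, (∃ d, G.IsHomogeneous d) →
    (∀ Q, RationalCurve F Q → ∀ t, eval (fun j => (Q j).eval t) G = 0) → eval x G = 0}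

/-- The Zariski closure in `X` of the union of the images of all entire curves of exponential type
in `X`. -/
def SpExp (F : ι → MvPolynomial (Fin (n + 1)) ℂ) : Set (Fin (n + 1) → ℂ) :=
  {x | x ∈ Pts F ∧ ∀ G : MvPolynomial (Fin (n + 1)) ℂ, (∃ d, G.IsHomogeneous d) →
    (∀ f, EntireCurve F f → ExpTypeP f → ∀ z, eval (f z) G = 0) → eval x G = 0}

theorem RationalCurve.entire {F : ι → MvPolynomial (Fin (n + 1)) ℂ}
    {Q : Fin (n + 1) → Polynomial ℂ} (hQ : RationalCurve F Q) :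
    EntireCurve F (fun z j => (Q j).eval z) ∧ ExpTypeP (fun z j => (Q j).eval z) := by
  refine ⟨⟨?_, hQ.1, hQ.2⟩, ?_⟩
  · rw [differentiable_pi]
    exact fun j => (Q j).differentiable
  · refine ⟨id, fun z j => (Q j).eval z, differentiable_id, ⟨0, 1, zero_ne_one⟩, ?_, ⟨0, (hQ.1 0).1⟩,
      fun z => ⟨1, by rw [one_smul]; rfl⟩⟩
    refine ⟨0, fun _ _ => 0, fun j => Polynomial.aeval (X 0) (Q j), fun i => i.elim0,
      fun z j => ?_⟩
    have h1 : ∀ y : Fin 1 → ℂ, eval y (Polynomial.aeval (X 0 : MvPolynomial (Fin 1) ℂ) (Q j))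
        = (Q j).eval (y 0) := by
      intro y
      have h2 := Polynomial.map_aeval_eq_aeval_map (S := MvPolynomial (Fin 1) ℂ) (U := ℂ)
        (φ := RingHom.id ℂ) (ψ := eval y) (by ext a; simp) (Q j) (X 0)
      rw [h2]
      simp
    exact (h1 (Fin.cons z fun _ => Complex.exp 0)).symm

theorem rational_of_entire' (F : ι → MvPolynomial (Fin (n + 1)) ℂ)
    (hF : ∀ i, ∃ d, (F i).IsHomogeneous d)
    (f : ℂ → Fin (n + 1) → ℂ) (hf : EntireCurve F f) (hft : ExpTypeP f)
    (G : MvPolynomial (Fin (n + 1)) ℂ) {e : ℕ} (hG : G.IsHomogeneous e) (z : ℂ)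
    (hz : eval (f z) G ≠ 0) :
    ∃ Q, RationalCurve F Q ∧ eval (fun j => (Q j).eval 1) G ≠ 0 := by
  obtain ⟨v, hv, hvG, ⟨m, j, k, hjk⟩, hvF⟩ := rational_of_entire f hf.1 (fun z => (hf.2.1 z).1)
    hft hf.2.2 G hG z hz
  have h1 : v 1 ≠ 0 := by
    intro h
    apply hjk
    rw [h]
    simp
  obtain ⟨D, Q, c, hD, hDj, hQ, hc, hcfin⟩ := reduce v hv h1
  refine ⟨Q, ⟨fun t => ⟨?_, fun i => ?_⟩, ?_⟩, ?_⟩
  · obtain ⟨j, hj⟩ := hQ t
    exact Function.ne_iff.mpr ⟨j, hj⟩
  · obtain ⟨d, hd⟩ := hF i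
    have h2 := reduce_mem v D Q c hD hc hcfin (F i) hd
      (hvF (F i) d hd (fun z => (hf.2.1 z).2 i)) 1 t
    rw [show (fun j => hom D (Q j) 1 t) = fun j => (Q j).eval t from funext fun j => by
      rw [hom_of_ne D (Q j) (hD j) _ _ one_ne_zero]
      simp] at h2
    exact h2
  · refine ⟨1, 2 ^ m, fun a ha => hjk ?_⟩
    have h2 : ∀ l, (Q l).eval 1 = a * (Q l).eval (2 ^ m) := fun l => congrFun ha l
    rw [hc 1 one_ne_zero, hc 1 one_ne_zero, hc _ (pow_ne_zero _ two_ne_zero),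
      hc _ (pow_ne_zero _ two_ne_zero), h2 j, h2 k]
    ring
  · intro h0
    apply hvG
    rw [show v 1 = fun j => c 1 * (Q j).eval 1 from funext fun j => hc 1 one_ne_zero j,
      eval_smul_homog hG, h0, mul_zero]

/-- The entire curves of exponential type and the rational curves have the same Zariski closure. -/
theorem spExp_eq (F : ι → MvPolynomial (Fin (n + 1)) ℂ) (hF : ∀ i, ∃ d, (F i).IsHomogeneous d) :
    SpExp F = SpRat F := by
  ext x
  constructor
  · rintro ⟨hx, h⟩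
    refine ⟨hx, fun G hG hv => h G hG fun f hf hft z => ?_⟩
    by_contra hz
    obtain ⟨e, he⟩ := hG
    obtain ⟨Q, hQ, hQ1⟩ := rational_of_entire' F hF f hf hft G he z hz
    exact hQ1 (hv Q hQ 1)
  · rintro ⟨hx, h⟩
    exact ⟨hx, fun G hG hf => h G hG fun Q hQ t => hf _ hQ.entire.1 hQ.entire.2 t⟩

end Pool.Agent.H159R3.Exp
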